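import Pool.Agent.H82.Hen.Words

/-!
# The cost of a word and its partition function
-/

open Set

noncomputable section

namespace Pool.Agent.H82.Hen

/-- The largest `k ≤ K` such that the prefix of length `2ᵏ` is `k`-regular. -/
def level (K : ℕ) (s : ℤ → Bool) : ℕ :=
  @Nat.findGreatest (fun k => Reg k 0 (2 ^ k) s) (Classical.decPred _) K

theorem level_le (K : ℕ) (s : ℤ → Bool) : level K s ≤ K := by
  classical
  exact Nat.findGreatest_le K

theorem level_reg (K : ℕ) (s : ℤ → Bool) : Reg (level K s) 0 (2 ^ level K s) s := by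
  classical
  exact Nat.findGreatest_spec (P := fun k => Reg k 0 (2 ^ k) s) (Nat.zero_le K) (Reg.zero _ _ _)

theorem level_not_reg {K : ℕ} {s : ℤ → Bool} (h : level K s < K) :
    ¬ Reg (level K s + 1) 0 (2 ^ (level K s + 1)) s := by
  classical
  exact Nat.findGreatest_is_greatest (P := fun k => Reg k 0 (2 ^ k) s) (Nat.lt_succ_self _) h

theorem level_congr {K : ℕ} {s s' : ℤ → Bool} (h : ∀ n : ℤ, 0 ≤ n → n < 2 ^ K → s n = s' n) :
    level K s = level K s' := by
  classical
  have key : ∀ k ≤ K, (Reg k 0 (2 ^ k) s ↔ Reg k 0 (2 ^ k) s') := by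
    intro k hk
    refine reg_congr fun n h1 h2 => h n h1 (h2.trans_le ?_)
    exact pow_le_pow_right₀ (by norm_num) hk
  refine le_antisymm ?_ ?_
  · refine Nat.le_findGreatest (level_le K s) ?_
    exact (key _ (level_le K s)).1 (level_reg K s)
  · refine Nat.le_findGreatest (level_le K s') ?_
    exact (key _ (level_le K s')).2 (level_reg K s')

/-- Cost of a block of level `k`. -/
def blockCost (k : ℕ) : ℝ := 2 ^ k * (6 * (3 / 4) ^ (k + 1))

/-- Cost of the prefix of length `N`. -/
def cost (K : ℕ) (N : ℕ) (s : ℤ → Bool) : ℝ :=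
  if _h : N < 2 ^ K then 0
  else (if level K s < K then blockCost (level K s) else 0) +
    cost K (N - 2 ^ level K s) (shift (2 ^ level K s) s)
termination_by N
decreasing_by
  have h1 : 0 < 2 ^ level K s := by positivity
  have h2 : 0 < 2 ^ K := by positivity
  omega

theorem cost_of_lt {K N : ℕ} {s : ℤ → Bool} (h : N < 2 ^ K) : cost K N s = 0 := by
  rw [cost, dif_pos h]

theorem cost_of_ge {K N : ℕ} {s : ℤ → Bool} (h : ¬ N < 2 ^ K) :
    cost K N s = (if level K s < K then blockCost (level K s) else 0) +
    cost K (N - 2 ^ level K s) (shift (2 ^ level K s) s) := by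
  rw [cost, dif_neg h]

theorem cost_congr (K : ℕ) : ∀ (N : ℕ) (s s' : ℤ → Bool),
    (∀ n : ℤ, 0 ≤ n → n < N → s n = s' n) → cost K N s = cost K N s' := by
  intro N
  induction N using Nat.strong_induction_on with
  | _ N ih =>
    intro s s' h
    by_cases hN : N < 2 ^ K
    · rw [cost_of_lt hN, cost_of_lt hN]
    · rw [cost_of_ge hN, cost_of_ge hN]
      have hK : ((2 ^ K : ℕ) : ℤ) ≤ N := by exact_mod_cast (not_lt.1 hN)
      push_cast at hK
      have hl : level K s = level K s' := level_congr fun n h1 h2 => h n h1 (h2.trans_le hK)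
      rw [← hl]
      congr 1
      have hle : 2 ^ level K s ≤ 2 ^ K := Nat.pow_le_pow_right (by norm_num) (level_le K s)
      have hpos : 0 < 2 ^ level K s := by positivity
      apply ih
      · have h2 : 0 < 2 ^ K := by positivity
        omega
      · intro n h1 h2
        have h3 : ((N - 2 ^ level K s : ℕ) : ℤ) = N - 2 ^ level K s := by
          rw [Nat.cast_sub (by omega)]; push_cast; rfl
        rw [h3] at h2
        simp only [shift]
        apply h
        · positivity
        · linarith

/-- Weighted sum of the irregularity indicators. -/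
def psiTerm (k : ℕ) (s : ℤ → Bool) : ℝ := by
  classical
  exact 12 * (3 / 4) ^ k * (if Reg k (-2 ^ k) (2 ^ k) s then 0 else 1)

/-- The function `ψ` on sequences. -/
def psi (s : ℤ → Bool) : ℝ := ∑' k, psiTerm k s

theorem psiTerm_nonneg (k : ℕ) (s : ℤ → Bool) : 0 ≤ psiTerm k s := by
  unfold psiTerm
  split_ifs <;> positivity

theorem psiTerm_le (k : ℕ) (s : ℤ → Bool) : psiTerm k s ≤ 12 * (3 / 4) ^ k := by
  unfold psiTerm
  split_ifs
  · rw [mul_zero]; positivity
  · rw [mul_one]

theorem summable_geom : Summable (fun k : ℕ => (12 : ℝ) * (3 / 4) ^ k) :=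
  (summable_geometric_of_lt_one (by norm_num) (by norm_num)).mul_left _

theorem summable_psiTerm (s : ℤ → Bool) : Summable (fun k => psiTerm k s) :=
  Summable.of_nonneg_of_le (fun k => psiTerm_nonneg k s) (fun k => psiTerm_le k s) summable_geom

theorem psi_nonneg (s : ℤ → Bool) : 0 ≤ psi s := tsum_nonneg fun k => psiTerm_nonneg k s

theorem psi_le (s : ℤ → Bool) : psi s ≤ 48 := by
  have h : ∑' k : ℕ, (12 : ℝ) * (3 / 4) ^ k = 48 := by
    rw [tsum_mul_left, tsum_geometric_of_lt_one (by norm_num) (by norm_num)]
    norm_num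
  rw [← h]
  exact Summable.tsum_le_tsum (fun k => psiTerm_le k s) (summable_psiTerm s) summable_geom

theorem le_psi_of_not_reg {k : ℕ} {s : ℤ → Bool} (h : ¬ Reg k (-2 ^ k) (2 ^ k) s) :
    12 * (3 / 4) ^ k ≤ psi s := by
  have h1 : psiTerm k s = 12 * (3 / 4) ^ k := by
    unfold psiTerm
    rw [if_neg h]; ring
  rw [← h1]
  exact (summable_psiTerm s).le_tsum k fun j _ => psiTerm_nonneg j s

theorem reg_of_psi_eq_zero {s : ℤ → Bool} (h : psi s = 0) (k : ℕ) : Reg k (-2 ^ k) (2 ^ k) s := by
  by_contra hc
  have := le_psi_of_not_reg hc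
  rw [h] at this
  have h2 : (0 : ℝ) < 12 * (3 / 4) ^ k := by positivity
  linarith

theorem psi_eq_zero {s : ℤ → Bool} (h : ∀ k, Reg k (-2 ^ k) (2 ^ k) s) : psi s = 0 := by
  unfold psi
  have : ∀ k, psiTerm k s = 0 := by
    intro k
    unfold psiTerm
    rw [if_pos (h k), mul_zero]
  simp [this]

theorem cost_le (K : ℕ) : ∀ (N : ℕ) (s : ℤ → Bool),
    cost K N s ≤ ∑ j ∈ Finset.range N, (1 / 2) * psi (shift (j : ℤ) s) := by
  intro N
  induction N using Nat.strong_induction_on with
  | _ N ih =>
    intro s
    by_cases hN : N < 2 ^ K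
    · rw [cost_of_lt hN]
      exact Finset.sum_nonneg fun j _ => mul_nonneg (by norm_num) (psi_nonneg _)
    · rw [cost_of_ge hN]
      set k := level K s with hk
      have hle : 2 ^ k ≤ 2 ^ K := Nat.pow_le_pow_right (by norm_num) (level_le K s)
      have hpos : 0 < 2 ^ k := by positivity
      obtain ⟨M, hM⟩ := Nat.exists_eq_add_of_le (show 2 ^ k ≤ N by omega)
      have hM' : N - 2 ^ k = M := by omega
      rw [hM']
      have hih := ih M (by omega) (shift (2 ^ k) s)
      rw [hM, Finset.sum_range_add]
      refine add_le_add ?_ (hih.trans (le_of_eq ?_))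
      · split_ifs with hlt
        · have hnr := level_not_reg hlt
          rw [← hk] at hnr
          have hterm : ∀ j ∈ Finset.range (2 ^ k),
              6 * (3 / 4) ^ (k + 1) ≤ (1 / 2) * psi (shift (j : ℤ) s) := by
            intro j hj
            have hj' : (j : ℤ) < 2 ^ k := by exact_mod_cast Finset.mem_range.1 hj
            have hj0 : (0 : ℤ) ≤ j := by positivity
            have h1 : ¬ Reg (k + 1) (-2 ^ (k + 1)) (2 ^ (k + 1)) (shift (j : ℤ) s) := by
              intro hr
              rw [reg_shift] at hr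
              refine hnr (hr.mono ?_ ?_)
              · have : (2 : ℤ) ^ (k + 1) = 2 * 2 ^ k := by ring
                have : (0 : ℤ) < 2 ^ k := by positivity
                linarith
              · linarith
            have h2 := le_psi_of_not_reg h1
            linarith
          have := Finset.card_nsmul_le_sum _ _ _ hterm
          rw [Finset.card_range, nsmul_eq_mul] at this
          unfold blockCost
          push_cast at this
          exact this
        · exact Finset.sum_nonneg fun j _ => mul_nonneg (by norm_num) (psi_nonneg _)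
      · refine Finset.sum_congr rfl fun j _ => ?_
        rw [shift_shift]
        push_cast
        rw [add_comm (j : ℤ)]

end Pool.Agent.H82.Hen
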