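import Mathlib

/-!
# Complex Hénon maps, entropy, equilibrium states and large deviations

Definitions used in the statement about problem MP_3779a0_an.
-/

open MeasureTheory Filter Topology Set
open scoped NNReal

noncomputable section

namespace Pool.Agent.H82.Hen

/-- The elementary map `H_{a,P}(x, y) = (P(x) - a y, x)` of `ℂ²`. -/
def henonMap (a : ℂ) (P : Polynomial ℂ) (z : ℂ × ℂ) : ℂ × ℂ :=
  (P.eval z.1 - a * z.2, z.1)

/-- A complex Hénon map: a composition `H_{a₁,P₁} ∘ ⋯ ∘ H_{aₖ,Pₖ}`, `k ≥ 1`, with all `aᵢ ≠ 0`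
and all `Pᵢ` of degree `≥ 2`. -/
inductive IsHenon : (ℂ × ℂ → ℂ × ℂ) → Prop
  | single (a : ℂ) (P : Polynomial ℂ) (ha : a ≠ 0) (hP : 2 ≤ P.natDegree) :
      IsHenon (henonMap a P)
  | comp (a : ℂ) (P : Polynomial ℂ) (ha : a ≠ 0) (hP : 2 ≤ P.natDegree)
      (f : ℂ × ℂ → ℂ × ℂ) (hf : IsHenon f) : IsHenon (henonMap a P ∘ f)

section entropy

variable {α : Type*} [MeasurableSpace α]

/-- Shannon entropy of the (finite) partition of a probability space into the fibres of `X`. -/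
def shannon {ι : Type*} [Fintype ι] (ν : Measure α) (X : α → ι) : ℝ :=
  ∑ i, Real.negMulLog (ν.real (X ⁻¹' {i}))

/-- The `n`-itinerary `x ↦ (ξ x, ξ (T x), …, ξ (T^{n-1} x))`; its fibres form the joined
partition `ξ ∨ T⁻¹ξ ∨ ⋯ ∨ T^{-(n-1)}ξ`. -/
def itinerary {k : ℕ} (T : α → α) (ξ : α → Fin k) (n : ℕ) (x : α) : Fin n → Fin k :=
  fun j => ξ (T^[j] x)

/-- Entropy of `T` with respect to the finite partition into the fibres of `ξ`:
`limsup (1/n) H(ξ ∨ ⋯ ∨ T^{-(n-1)}ξ)` (for an invariant measure this is a limit). -/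
def partEntropy {k : ℕ} (T : α → α) (ν : Measure α) (ξ : α → Fin k) : EReal :=
  limsup (fun n : ℕ => ((shannon ν (itinerary T ξ n) / n : ℝ) : EReal)) atTop

/-- Kolmogorov–Sinai (measure-theoretic) entropy: the supremum over all finite measurable
partitions. -/
def ksEntropy (T : α → α) (ν : Measure α) : EReal :=
  ⨆ (k : ℕ) (ξ : α → Fin k) (_ : Measurable ξ), partEntropy T ν ξ

/-- `ν` is a `T`-invariant probability measure. -/
structure IsInvariantProb (T : α → α) (ν : Measure α) : Prop where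
  prob : IsProbabilityMeasure ν
  inv : MeasurePreserving T ν ν

/-- `h_ν + ⟨ν, φ⟩`. -/
def freeEnergy (T : α → α) (φ : α → ℝ) (ν : Measure α) : EReal :=
  ksEntropy T ν + ((∫ z, φ z ∂ν : ℝ) : EReal)

/-- The pressure `P(φ) = sup_ν (h_ν + ⟨ν, φ⟩)`, over all invariant probability measures. -/
def pressure (T : α → α) (φ : α → ℝ) : EReal :=
  ⨆ (ν : Measure α) (_ : IsInvariantProb T ν), freeEnergy T φ ν

/-- `μ` is an equilibrium state for `φ`: an invariant probability measure attaining the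
pressure. -/
def IsEquilibriumState (T : α → α) (φ : α → ℝ) (μ : Measure α) : Prop :=
  IsInvariantProb T μ ∧ freeEnergy T φ μ = pressure T φ

/-- `μ` is the unique equilibrium state for `φ`. -/
def IsUniqueEquilibriumState (T : α → α) (φ : α → ℝ) (μ : Measure α) : Prop :=
  IsEquilibriumState T φ μ ∧ ∀ ν, IsEquilibriumState T φ ν → ν = μ

/-- `g` is an (`L²(μ)`-)coboundary: `g = u ∘ T - u` holds `μ`-almost everywhere for some
`u ∈ L²(μ)`. -/
def IsCoboundary (T : α → α) (μ : Measure α) (g : α → ℝ) : Prop :=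
  ∃ u : α → ℝ, MemLp u 2 μ ∧ ∀ᵐ z ∂μ, g z = u (T z) - u z

/-- The large deviation property of the problem: there is a function `c`, defined on a
neighbourhood `(-δ, δ)` of `0`, non-negative, strictly convex, vanishing only at `0`, with
`(1/n) log μ {x : S_n g (x) / n > ε} → - c ε` for every sufficiently small `ε > 0`.
The logarithm takes values in the extended reals (`log 0 = -∞`). -/
def HasLargeDeviations (T : α → α) (μ : Measure α) (g : α → ℝ) : Prop :=
  ∃ (c : ℝ → ℝ) (δ : ℝ), 0 < δ ∧ (∀ t ∈ Ioo (-δ) δ, 0 ≤ c t) ∧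
    StrictConvexOn ℝ (Ioo (-δ) δ) c ∧ (∀ t ∈ Ioo (-δ) δ, c t = 0 → t = 0) ∧
    ∀ᶠ ε in 𝓝[>] (0 : ℝ),
      Tendsto (fun n : ℕ => ENNReal.log (μ {z | ε < birkhoffSum T g n z / n}) / (n : EReal))
        atTop (𝓝 ((-(c ε) : ℝ) : EReal))

end entropy

/-- Hölder continuity of a real function on `ℂ²`. -/
def IsHolder (g : ℂ × ℂ → ℝ) : Prop :=
  ∃ C r : ℝ≥0, 0 < r ∧ r ≤ 1 ∧ HolderWith C r g

end Pool.Agent.H82.Hen
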