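import Pool.Agent.H82.Hen.Toep

/-!
# Uniform frequency `1/3` of the letter `true`
-/

open MeasureTheory Set Filter Topology

noncomputable section

namespace Pool.Agent.H82.Hen

theorem count_class (M : ℕ) (hM : 0 < M) (c : ℤ) (n : ℕ) :
    (n : ℝ) / M - 1 ≤ (((Finset.range n).filter (fun j : ℕ => (M : ℤ) ∣ j - c)).card : ℝ) ∧
    (((Finset.range n).filter (fun j : ℕ => (M : ℤ) ∣ j - c)).card : ℝ) ≤ (n : ℝ) / M + 1 := by
  have hM' : (0 : ℤ) < M := by exact_mod_cast hM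
  set v := (c % M).toNat with hv
  have h0 : 0 ≤ c % M := Int.emod_nonneg _ hM'.ne'
  have hveq : (v : ℤ) = c % M := by rw [hv, Int.toNat_of_nonneg h0]
  have h1 : (Finset.range n).filter (fun j : ℕ => (M : ℤ) ∣ j - c) =
      (Finset.range n).filter (fun j : ℕ => j ≡ v [MOD M]) := by
    refine Finset.filter_congr fun j _ => ?_
    rw [← Int.natCast_modEq_iff, hveq]
    have h2 : (M : ℤ) ∣ c - c % M := Int.dvd_self_sub_emod
    constructor
    · intro h
      refine (Int.modEq_iff_dvd.2 ?_).symm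
      have : (j : ℤ) - c % M = (j - c) + (c - c % M) := by ring
      rw [this]
      exact dvd_add h h2
    · intro h
      have h3 := Int.modEq_iff_dvd.1 h.symm
      have : (j : ℤ) - c = (j - c % M) - (c - c % M) := by ring
      rw [this]
      exact dvd_sub h3 h2
  have h2 := Nat.count_modEq_card n hM v
  rw [Nat.count_eq_card_filter_range] at h2
  rw [h1, h2]
  have hMr : (0 : ℝ) < M := by exact_mod_cast hM
  have e1 : ((n / M : ℕ) : ℝ) ≤ (n : ℝ) / M := Nat.cast_div_le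
  have e2 : (n : ℝ) / M - 1 ≤ ((n / M : ℕ) : ℝ) := by
    have h3 : n < (n / M + 1) * M := by
      have := Nat.lt_mul_div_succ n hM
      rw [mul_comm]; exact this
    have h4 : (n : ℝ) < ((n / M : ℕ) + 1) * M := by exact_mod_cast h3
    have h5 : (n : ℝ) / M < (n / M : ℕ) + 1 := by
      rw [div_lt_iff₀ hMr]; exact h4
    linarith
  split_ifs
  · push_cast
    constructor <;> linarith
  · push_cast
    constructor <;> linarith

/-- Number of `true` among `s 0, …, s (n-1)`. -/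
def ones (s : ℤ → Bool) (n : ℕ) : ℕ := ((Finset.range n).filter (fun j : ℕ => s j = true)).card

theorem par_eq_true_iff {K : ℕ} {d : ℤ} (hd : ¬ (2 : ℤ) ^ (2 * K) ∣ d) :
    par d = true ↔ ∃ l ∈ Finset.range K, (2 : ℤ) ^ (2 * l + 2) ∣ d - 2 ^ (2 * l + 1) := by
  have hd0 : d ≠ 0 := fun h0 => hd (h0 ▸ dvd_zero _)
  have hlt : padicValInt 2 d < 2 * K := by
    by_contra hge
    push Not at hge
    exact hd ((padicValInt_dvd_iff (p := 2) (2 * K) d).2 (Or.inr hge))
  unfold par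
  rw [decide_eq_true_iff]
  constructor
  · rintro ⟨l, hl⟩
    refine ⟨l, Finset.mem_range.2 (by omega), ?_⟩
    have h1 : (2 : ℤ) ^ (2 * l + 1) ∣ d :=
      (padicValInt_dvd_iff (p := 2) (2 * l + 1) d).2 (Or.inr hl.ge)
    have h2 : ¬ (2 : ℤ) ^ (2 * l + 2) ∣ d := by
      intro h3
      rcases (padicValInt_dvd_iff (p := 2) (2 * l + 2) d).1 h3 with h4 | h4
      · exact hd0 h4
      · omega
    obtain ⟨t, ht⟩ := h1
    have hodd : ¬ (2 : ℤ) ∣ t := by
      rintro ⟨u, hu⟩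
      exact h2 ⟨u, by rw [ht, hu]; ring⟩
    obtain ⟨u, hu⟩ : ∃ u, t = 2 * u + 1 := by
      rcases Int.even_or_odd t with he | ho
      · exact absurd he.two_dvd hodd
      · exact ho
    exact ⟨u, by rw [ht, hu]; ring⟩
  · rintro ⟨l, -, t, ht⟩
    have hd' : d = 2 ^ (2 * l + 1) * (2 * t + 1) := by
      have : d = 2 ^ (2 * l + 2) * t + 2 ^ (2 * l + 1) := by linarith
      rw [this]; ring
    have h1 : (2 : ℤ) ^ (2 * l + 1) ∣ d := ⟨_, hd'⟩
    have h2 : ¬ (2 : ℤ) ^ (2 * l + 1 + 1) ∣ d := by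
      rintro ⟨u, hu⟩
      rw [hd'] at hu
      have h3 : (2 : ℤ) ^ (2 * l + 1) * (2 * t + 1) = 2 ^ (2 * l + 1) * (2 * u) := by
        rw [hu]; ring
      have h4 := mul_left_cancel₀ (by positivity : (2 : ℤ) ^ (2 * l + 1) ≠ 0) h3
      omega
    rw [val_eq h1 h2]
    exact ⟨l, rfl⟩

theorem geo_sum (x : ℝ) (K : ℕ) :
    ∑ l ∈ Finset.range K, x / 4 ^ (l + 1) = x / 3 * (1 - 1 / 4 ^ K) := by
  induction K with
  | zero => simp
  | succ K ih =>
    rw [Finset.sum_range_succ, ih, pow_succ]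
    field_simp
    ring

theorem ones_bound {K : ℕ} {n : ℕ} {s : ℤ → Bool} {r : ℤ} (h : RegAt (2 * K) 0 n s r) :
    |(ones s n : ℝ) - n / 3| ≤ n / 4 ^ K + K + 1 := by
  classical
  set A : ℕ → Finset ℕ := fun l => (Finset.range n).filter
    (fun j : ℕ => ((2 ^ (2 * l + 2) : ℕ) : ℤ) ∣ j - (r + 2 ^ (2 * l + 1))) with hA
  set B : Finset ℕ := (Finset.range n).filter
    (fun j : ℕ => ((2 ^ (2 * K) : ℕ) : ℤ) ∣ j - r) with hB
  set S : Finset ℕ := (Finset.range n).filter (fun j : ℕ => s j = true) with hS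
  have hAS : (Finset.range K).biUnion A ⊆ S := by
    intro j hj
    rw [Finset.mem_biUnion] at hj
    obtain ⟨l, hl, hj⟩ := hj
    rw [hA, Finset.mem_filter] at hj
    obtain ⟨hj1, hj2⟩ := hj
    have hl' := Finset.mem_range.1 hl
    push_cast at hj2
    have hj2' : (2 : ℤ) ^ (2 * l + 2) ∣ (j - r) - 2 ^ (2 * l + 1) := by
      have : (j : ℤ) - r - 2 ^ (2 * l + 1) = j - (r + 2 ^ (2 * l + 1)) := by ring
      rw [this]; exact hj2
    have hnd : ¬ (2 : ℤ) ^ (2 * K) ∣ (j : ℤ) - r := by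
      intro hd
      have h1 : (2 : ℤ) ^ (2 * l + 2) ∣ (j : ℤ) - r := (pow_dvd_pow 2 (by omega)).trans hd
      have h2 : (2 : ℤ) ^ (2 * l + 2) ∣ 2 ^ (2 * l + 1) := by
        have := dvd_sub h1 hj2'
        simpa using this
      have h3 := Int.le_of_dvd (by positivity) h2
      have h4 : (2 : ℤ) ^ (2 * l + 2) = 2 * 2 ^ (2 * l + 1) := by ring
      have h5 : (0 : ℤ) < 2 ^ (2 * l + 1) := by positivity
      linarith
    refine Finset.mem_filter.2 ⟨hj1, ?_⟩
    rw [h j (by positivity) (by exact_mod_cast Finset.mem_range.1 hj1) hnd]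
    exact (par_eq_true_iff hnd).2 ⟨l, hl, hj2'⟩
  have hSAB : S ⊆ (Finset.range K).biUnion A ∪ B := by
    intro j hj
    obtain ⟨hj1, hj2⟩ := Finset.mem_filter.1 hj
    by_cases hd : (2 : ℤ) ^ (2 * K) ∣ (j : ℤ) - r
    · exact Finset.mem_union_right _ (Finset.mem_filter.2 ⟨hj1, by push_cast; exact hd⟩)
    · rw [h j (by positivity) (by exact_mod_cast Finset.mem_range.1 hj1) hd] at hj2
      obtain ⟨l, hl, hl2⟩ := (par_eq_true_iff hd).1 hj2
      refine Finset.mem_union_left _ (Finset.mem_biUnion.2 ⟨l, hl, ?_⟩)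
      refine Finset.mem_filter.2 ⟨hj1, ?_⟩
      push_cast
      have : (j : ℤ) - (r + 2 ^ (2 * l + 1)) = j - r - 2 ^ (2 * l + 1) := by ring
      rw [this]; exact hl2
  have hdisj : Set.PairwiseDisjoint (↑(Finset.range K)) A := by
    have aux : ∀ l m : ℕ, l < m → ∀ j : ℕ, j ∈ A l → j ∈ A m → False := by
      intro l m hlm j hjl hjm
      have h1 := (Finset.mem_filter.1 hjl).2
      have h2 := (Finset.mem_filter.1 hjm).2
      push_cast at h1 h2
      have h3 : (2 : ℤ) ^ (2 * l + 2) ∣ j - (r + 2 ^ (2 * m + 1)) :=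
        (pow_dvd_pow 2 (by omega)).trans h2
      have h4 : (2 : ℤ) ^ (2 * l + 2) ∣ 2 ^ (2 * m + 1) := pow_dvd_pow 2 (by omega)
      have h5 : (2 : ℤ) ^ (2 * l + 2) ∣ 2 ^ (2 * l + 1) := by
        have : (2 : ℤ) ^ (2 * l + 1) = ((j - (r + 2 ^ (2 * m + 1))) + 2 ^ (2 * m + 1)) -
            (j - (r + 2 ^ (2 * l + 1))) := by ring
        rw [this]
        exact dvd_sub (dvd_add h3 h4) h1
      have h6 := Int.le_of_dvd (by positivity) h5
      have h7 : (2 : ℤ) ^ (2 * l + 2) = 2 * 2 ^ (2 * l + 1) := by ring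
      have h8 : (0 : ℤ) < 2 ^ (2 * l + 1) := by positivity
      linarith
    intro l _ m _ hlm
    refine Finset.disjoint_left.2 fun j hjl hjm => ?_
    rcases lt_or_gt_of_ne hlm with h1 | h1
    · exact aux l m h1 j hjl hjm
    · exact aux m l h1 j hjm hjl
  have hcardA : (((Finset.range K).biUnion A).card : ℝ) = ∑ l ∈ Finset.range K, ((A l).card : ℝ) := by
    rw [Finset.card_biUnion hdisj]
    push_cast
    rfl
  have hAl : ∀ l, (n : ℝ) / 4 ^ (l + 1) - 1 ≤ ((A l).card : ℝ) ∧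
      ((A l).card : ℝ) ≤ (n : ℝ) / 4 ^ (l + 1) + 1 := by
    intro l
    have := count_class (2 ^ (2 * l + 2)) (by positivity) (r + 2 ^ (2 * l + 1)) n
    have e : (((2 : ℕ) ^ (2 * l + 2) : ℕ) : ℝ) = 4 ^ (l + 1) := by
      push_cast
      rw [show 2 * l + 2 = 2 * (l + 1) by ring, pow_mul]
      norm_num
    rw [e] at this
    exact this
  have hBc : ((B.card : ℕ) : ℝ) ≤ n / 4 ^ K + 1 := by
    have := (count_class (2 ^ (2 * K)) (by positivity) r n).2
    have e : (((2 : ℕ) ^ (2 * K) : ℕ) : ℝ) = 4 ^ K := by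
      push_cast
      rw [pow_mul]
      norm_num
    rw [e] at this
    exact this
  have hgeo : ∑ l ∈ Finset.range K, (n : ℝ) / 4 ^ (l + 1) = n / 3 * (1 - 1 / 4 ^ K) :=
    geo_sum n K
  have hlow : (n : ℝ) / 3 * (1 - 1 / 4 ^ K) - K ≤ ones s n := by
    have h1 : (((Finset.range K).biUnion A).card : ℝ) ≤ S.card := by
      exact_mod_cast Finset.card_le_card hAS
    have h2 : ∑ l ∈ Finset.range K, ((n : ℝ) / 4 ^ (l + 1) - 1) ≤
        ∑ l ∈ Finset.range K, ((A l).card : ℝ) := Finset.sum_le_sum fun l _ => (hAl l).1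
    rw [Finset.sum_sub_distrib, hgeo] at h2
    simp only [Finset.sum_const, Finset.card_range, nsmul_eq_mul, mul_one] at h2
    rw [hcardA] at h1
    exact h2.trans h1
  have hup : (ones s n : ℝ) ≤ (n : ℝ) / 3 * (1 - 1 / 4 ^ K) + K + (n / 4 ^ K + 1) := by
    have h1 : (S.card : ℝ) ≤ ((Finset.range K).biUnion A).card + B.card := by
      have := (Finset.card_le_card hSAB).trans (Finset.card_union_le _ _)
      exact_mod_cast this
    have h2 : ∑ l ∈ Finset.range K, ((A l).card : ℝ) ≤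
        ∑ l ∈ Finset.range K, ((n : ℝ) / 4 ^ (l + 1) + 1) := Finset.sum_le_sum fun l _ => (hAl l).2
    rw [Finset.sum_add_distrib, hgeo] at h2
    simp only [Finset.sum_const, Finset.card_range, nsmul_eq_mul, mul_one] at h2
    rw [hcardA] at h1
    have h3 : (ones s n : ℝ) = S.card := rfl
    rw [h3]
    linarith
  have hn0 : (0 : ℝ) ≤ n := by positivity
  have h4 : (n : ℝ) / 3 * (1 - 1 / 4 ^ K) = n / 3 - n / 4 ^ K / 3 := by
    field_simp
  have h5 : 0 ≤ (n : ℝ) / 4 ^ K := by positivity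
  rw [h4] at hlow hup
  rw [abs_le]
  constructor <;> linarith

theorem ones_bound_good {s : ℤ → Bool} (hs : Good s) (K n : ℕ) :
    |(ones s n : ℝ) - n / 3| ≤ n / 4 ^ K + K + 1 := by
  obtain ⟨r, hr⟩ := hs (max (2 * K) n) 0 n (by
    have h1 : n < 2 ^ n := Nat.lt_two_pow_self
    have h2 : 2 ^ n ≤ 2 ^ (max (2 * K) n + 1) :=
      Nat.pow_le_pow_right (by norm_num) (by omega)
    have h3 : (n : ℤ) ≤ 2 ^ (max (2 * K) n + 1) := by exact_mod_cast (h1.trans_le h2).le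
    simpa using h3)
  refine ones_bound (K := K) (r := r) fun m h1 h2 h3 => hr m h1 h2 fun h4 => h3 ?_
  exact (pow_dvd_pow 2 (le_max_left _ _)).trans h4

theorem ones_uniform (ε : ℝ) (hε : 0 < ε) : ∃ n₀ : ℕ, ∀ n ≥ n₀, ∀ s : ℤ → Bool, Good s →
    |(ones s n : ℝ) - n / 3| ≤ ε * n := by
  obtain ⟨K, hK⟩ := exists_pow_lt_of_lt_one (show (0:ℝ) < ε / 2 by positivity)
    (show (1 / 4 : ℝ) < 1 by norm_num)
  obtain ⟨n₀, hn₀⟩ := exists_nat_gt ((K + 1) / (ε / 2))
  refine ⟨n₀, fun n hn s hs => (ones_bound_good hs K n).trans ?_⟩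
  have h1 : ((K : ℝ) + 1) / (ε / 2) < n := hn₀.trans_le (by exact_mod_cast hn)
  rw [div_lt_iff₀ (by positivity)] at h1
  have h2 : (n : ℝ) / 4 ^ K = n * (1 / 4) ^ K := by
    rw [one_div_pow]; field_simp
  rw [h2]
  have h3 : (n : ℝ) * (1 / 4) ^ K ≤ n * (ε / 2) :=
    mul_le_mul_of_nonneg_left hK.le (by positivity)
  linarith

end Pool.Agent.H82.Hen
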