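import Pool.Agent.H82.Hen.Defs

/-!
# Upper bounds for the Kolmogorov–Sinai entropy

The Gibbs inequality and an upper bound of the entropy of a measure in terms of a cost function
on words.
-/

open MeasureTheory Filter Topology Set
open scoped NNReal

noncomputable section

namespace Pool.Agent.H82.Hen

/-- Gibbs inequality. -/
theorem gibbs {ι : Type*} [Fintype ι] [Nonempty ι] (p V : ι → ℝ) (hp : ∀ i, 0 ≤ p i)
    (h1 : ∑ i, p i = 1) :
    ∑ i, Real.negMulLog (p i) ≤ ∑ i, p i * V i + Real.log (∑ i, Real.exp (-V i)) := by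
  set Z := ∑ i, Real.exp (-V i) with hZ
  have hZpos : 0 < Z := Finset.sum_pos (fun i _ => Real.exp_pos _) Finset.univ_nonempty
  have key : ∀ i, Real.negMulLog (p i) ≤
      p i * V i + p i * Real.log Z + (Real.exp (-V i) / Z - p i) := by
    intro i
    rcases (hp i).eq_or_lt with h | h
    · rw [← h]; simp [Real.negMulLog]; positivity
    · have hx : 0 < Real.exp (-V i) / (Z * p i) := by positivity
      have := Real.log_le_sub_one_of_pos hx
      have hlog : Real.log (Real.exp (-V i) / (Z * p i)) = - V i - Real.log Z - Real.log (p i) := by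
        rw [Real.log_div (Real.exp_pos _).ne' (by positivity), Real.log_exp,
          Real.log_mul hZpos.ne' h.ne']
        ring
      rw [hlog] at this
      have h2 := mul_le_mul_of_nonneg_left this h.le
      have h3 : p i * (Real.exp (-V i) / (Z * p i) - 1) = Real.exp (-V i) / Z - p i := by
        field_simp
      rw [h3] at h2
      unfold Real.negMulLog
      nlinarith
  calc _ ≤ ∑ i, (p i * V i + p i * Real.log Z + (Real.exp (-V i) / Z - p i)) :=
        Finset.sum_le_sum fun i _ => key i
    _ = _ := by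
      rw [Finset.sum_add_distrib, Finset.sum_add_distrib, ← Finset.sum_mul, h1,
        Finset.sum_sub_distrib, ← Finset.sum_div, h1, ← hZ, div_self hZpos.ne']
      ring

section

variable {α : Type*} [MeasurableSpace α]

theorem measureReal_fiber_sum {ι κ : Type*} [Fintype ι] [DecidableEq κ]
    (ν : Measure α) [IsProbabilityMeasure ν] (X : α → ι)
    (hX : ∀ i, MeasurableSet (X ⁻¹' {i})) (g : ι → κ) (j : κ) :
    ν.real ((g ∘ X) ⁻¹' {j}) = ∑ i ∈ Finset.univ.filter (fun i => g i = j), ν.real (X ⁻¹' {i}) := by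
  have h : (g ∘ X) ⁻¹' {j} = ⋃ i ∈ Finset.univ.filter (fun i => g i = j), X ⁻¹' {i} := by
    ext z; simp
  rw [h, measureReal_biUnion_finset]
  · intro a _ b _ hab
    refine Set.disjoint_left.2 ?_
    intro z hz hz'
    exact hab (by rw [← show X z = a from hz, ← show X z = b from hz'])
  · intro i _; exact hX i

theorem sum_fiber_eq_one {ι : Type*} [Fintype ι] (ν : Measure α) [IsProbabilityMeasure ν]
    (X : α → ι) (hX : ∀ i, MeasurableSet (X ⁻¹' {i})) : ∑ i, ν.real (X ⁻¹' {i}) = 1 := by
  have := measureReal_fiber_sum ν X hX (fun _ => ()) ()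
  simp only [Finset.filter_true] at this
  rw [← this]
  have : ((fun _ => ()) ∘ X) ⁻¹' {()} = Set.univ := by ext; simp
  rw [this]; simp

theorem shannon_comp_le {ι κ : Type*} [Fintype ι] [Fintype κ]
    (ν : Measure α) [IsProbabilityMeasure ν] (X : α → ι)
    (hX : ∀ i, MeasurableSet (X ⁻¹' {i})) (g : ι → κ) :
    shannon ν (g ∘ X) ≤ shannon ν X := by
  classical
  unfold shannon
  have h1 : ∑ i, Real.negMulLog (ν.real (X ⁻¹' {i})) =
      ∑ j, ∑ i ∈ Finset.univ.filter (fun i => g i = j), Real.negMulLog (ν.real (X ⁻¹' {i})) :=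
    (Finset.sum_fiberwise _ _ _).symm
  rw [h1]
  refine Finset.sum_le_sum fun j _ => ?_
  rw [measureReal_fiber_sum ν X hX g j]
  set s := Finset.univ.filter (fun i => g i = j)
  unfold Real.negMulLog
  rw [neg_mul, Finset.sum_mul, ← Finset.sum_neg_distrib]
  refine Finset.sum_le_sum fun i hi => ?_
  rw [neg_mul]
  refine neg_le_neg ?_
  have h0 : 0 ≤ ν.real (X ⁻¹' {i}) := measureReal_nonneg
  rcases h0.eq_or_lt with h | h
  · rw [← h]; simp
  · refine mul_le_mul_of_nonneg_left (Real.log_le_log h ?_) h0
    exact Finset.single_le_sum (f := fun i => ν.real (X ⁻¹' {i})) (fun _ _ => measureReal_nonneg) hi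

theorem shannon_comp_mp {ι : Type*} [Fintype ι] (ν : Measure α) (X : α → ι)
    (hX : ∀ i, MeasurableSet (X ⁻¹' {i})) {S : α → α} (hS : MeasurePreserving S ν ν) :
    shannon ν (X ∘ S) = shannon ν X := by
  unfold shannon
  refine Finset.sum_congr rfl fun i _ => ?_
  rw [Set.preimage_comp, measureReal_def, hS.measure_preimage (hX i).nullMeasurableSet,
    measureReal_def]

theorem integral_fiber {ι : Type*} [Fintype ι] (ν : Measure α) [IsProbabilityMeasure ν]
    (X : α → ι) (hX : ∀ i, MeasurableSet (X ⁻¹' {i})) (V : ι → ℝ) :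
    Integrable (fun z => V (X z)) ν ∧
      ∑ i, ν.real (X ⁻¹' {i}) * V i = ∫ z, V (X z) ∂ν := by
  classical
  have h : (fun z => V (X z)) = fun z => ∑ i, (X ⁻¹' {i}).indicator (fun _ => V i) z := by
    ext z
    rw [Finset.sum_eq_single (X z)]
    · simp
    · intro i _ hi
      rw [Set.indicator_of_notMem]
      intro hz; exact hi (Eq.symm hz)
    · simp
  have hint : ∀ i ∈ (Finset.univ : Finset ι),
      Integrable (fun z => (X ⁻¹' {i}).indicator (fun _ => V i) z) ν :=
    fun i _ => (integrable_const _).indicator (hX i)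
  constructor
  · rw [h]; exact integrable_finset_sum _ hint
  · rw [h, integral_finset_sum _ hint]
    refine Finset.sum_congr rfl fun i _ => ?_
    rw [integral_indicator_const _ (hX i), smul_eq_mul]

/-- The name of length `N`. -/
def nameOf (T : α → α) (β : α → Bool) (N : ℕ) (z : α) : Fin N → Bool :=
  fun j => β (T^[j] z)

end

end Pool.Agent.H82.Hen
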