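import Pool.Agent.H82.Hen.Entropy

/-!
# Main entropy bound
-/

open MeasureTheory Filter Topology Set
open scoped NNReal

noncomputable section

namespace Pool.Agent.H82.Hen

variable {α : Type*} [MeasurableSpace α]

/-- All fibres are measurable. -/
def FM {ι : Type*} (X : α → ι) : Prop := ∀ i, MeasurableSet (X ⁻¹' {i})

theorem FM.pi {ι κ : Type*} [Fintype ι] {X : ι → α → κ} (h : ∀ i, FM (X i)) :
    FM (fun z i => X i z) := by
  intro b
  have : (fun z i => X i z) ⁻¹' {b} = ⋂ i, X i ⁻¹' {b i} := by
    ext z; simp [funext_iff]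
  rw [this]
  exact MeasurableSet.iInter fun i => h i (b i)

theorem FM.prod {ι κ : Type*} {X : α → ι} {Y : α → κ} (hX : FM X) (hY : FM Y) :
    FM (fun z => (X z, Y z)) := by
  rintro ⟨a, b⟩
  have : (fun z => (X z, Y z)) ⁻¹' {(a, b)} = X ⁻¹' {a} ∩ Y ⁻¹' {b} := by
    ext z; simp
  rw [this]
  exact (hX a).inter (hY b)

theorem FM.comp {ι : Type*} {X : α → ι} (hX : FM X) {S : α → α} (hS : Measurable S) :
    FM (fun z => X (S z)) := fun i => hS (hX i)

theorem FM.of_measurable {ι : Type*} [MeasurableSpace ι] [MeasurableSingletonClass ι] {X : α → ι}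
    (hX : Measurable X) : FM X := fun i => hX (measurableSet_singleton i)

theorem measurable_nameOf {T : α → α} (hT : Measurable T) {β : α → Bool} (hβ : Measurable β)
    (N : ℕ) : Measurable (nameOf T β N) :=
  measurable_pi_iff.2 fun j => hβ.comp (hT.iterate j)

theorem shannon_itinerary_le {T : α → α} (ν : Measure α) [IsProbabilityMeasure ν]
    (hT : MeasurePreserving T ν ν) (β : α → Bool) (hβ : Measurable β) {k : ℕ} (ξ : α → Fin k)
    (hξ : Measurable ξ) (Ψ : α → ℝ) (hΨ : Integrable Ψ ν) (V : ∀ N, (Fin N → Bool) → ℝ)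
    (hV : ∀ N z, V N (nameOf T β N z) ≤ ∑ j ∈ Finset.range N, Ψ (T^[j] z))
    (D η : ℝ) (hD : 0 < D)
    (hZ : ∀ N : ℕ, ∑ w : Fin N → Bool, Real.exp (-V N w) ≤ D * Real.exp (η * N))
    (δ L : ℝ) (hL : 0 ≤ L) (m M : ℕ) (F : (Fin M → Bool) → Fin k)
    (hF : ν.real {z | ξ (T^[m] z) ≠ F (nameOf T β M z)} ≤ δ) (n : ℕ) :
    shannon ν (itinerary T ξ n) ≤ (n + M) * ∫ z, Ψ z ∂ν + L * (n * δ) +
      (Real.log D + η * (n + M)) + n * Real.log (1 + k * Real.exp (-L)) := by
  classical
  have hTm := hT.measurable
  set e : α → Option (Fin k) := fun z =>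
    if ξ (T^[m] z) = F (nameOf T β M z) then none else some (ξ (T^[m] z)) with he
  set W : α → (Fin (n + M) → Bool) × (Fin n → Option (Fin k)) := fun z =>
    (nameOf T β (n + M) z, fun i => e (T^[i] z)) with hW
  set G : (Fin (n + M) → Bool) × (Fin n → Option (Fin k)) → (Fin n → Fin k) := fun w i =>
    match w.2 i with
    | none => F (fun j => w.1 ⟨i + j, by omega⟩)
    | some a => a with hG
  have hGW : G ∘ W = itinerary T ξ n ∘ T^[m] := by
    funext z
    funext i
    simp only [hG, hW, he, Function.comp, itinerary]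
    have hcomm : T^[i] (T^[m] z) = T^[m] (T^[i] z) := by
      rw [← Function.iterate_add_apply, ← Function.iterate_add_apply, add_comm]
    have hname : (fun j : Fin M => nameOf T β (n + M) z ⟨i + j, by omega⟩) =
        nameOf T β M (T^[i] z) := by
      funext j
      simp only [nameOf]
      rw [← Function.iterate_add_apply, add_comm]
    by_cases hc : ξ (T^[m] (T^[i] z)) = F (nameOf T β M (T^[i] z))
    · rw [if_pos hc]
      simp only
      rw [hname, hcomm, hc]
    · rw [if_neg hc]
      simp only
      rw [hcomm]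
  -- measurability
  have hEq : MeasurableSet {z | ξ (T^[m] z) = F (nameOf T β M z)} := by
    have h1 : Measurable (fun z => ξ (T^[m] z)) := hξ.comp (hTm.iterate m)
    have h2 : Measurable (fun z => F (nameOf T β M z)) :=
      (measurable_of_finite F).comp (measurable_nameOf hTm hβ M)
    exact measurableSet_eq_fun h1 h2
  have heM : FM e := by
    intro o
    rcases o with _ | a
    · have : e ⁻¹' {none} = {z | ξ (T^[m] z) = F (nameOf T β M z)} := by
        ext z
        simp only [he, mem_preimage, mem_singleton_iff, mem_setOf_eq]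
        split_ifs with h <;> simp [h]
      rw [this]; exact hEq
    · have : e ⁻¹' {some a} = {z | ξ (T^[m] z) = F (nameOf T β M z)}ᶜ ∩
          (fun z => ξ (T^[m] z)) ⁻¹' {a} := by
        ext z
        simp only [he, mem_preimage, mem_singleton_iff, mem_inter_iff, mem_compl_iff, mem_setOf_eq]
        split_ifs with h <;> simp [h]
      rw [this]
      exact hEq.compl.inter ((hξ.comp (hTm.iterate m)) (measurableSet_singleton a))
  have hWM : FM W :=
    FM.prod (FM.of_measurable (measurable_nameOf hTm hβ (n + M)))
      (FM.pi fun i => heM.comp (hTm.iterate i))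
  have hItM : FM (itinerary T ξ n) :=
    FM.pi (X := fun (i : Fin n) z => ξ (T^[i] z))
      fun i => FM.of_measurable (hξ.comp (hTm.iterate i))
  -- the reduction
  have h1 : shannon ν (itinerary T ξ n) ≤ shannon ν W := by
    rw [← shannon_comp_mp ν _ hItM (hT.iterate m), ← hGW]
    exact shannon_comp_le ν W hWM G
  set Vt : (Fin (n + M) → Bool) × (Fin n → Option (Fin k)) → ℝ := fun w =>
    V (n + M) w.1 + ∑ i, (if w.2 i = none then 0 else L) with hVt
  have hne : Nonempty ((Fin (n + M) → Bool) × (Fin n → Option (Fin k))) :=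
    ⟨(fun _ => true, fun _ => none)⟩
  have h2 := gibbs (fun w => ν.real (W ⁻¹' {w})) Vt (fun _ => measureReal_nonneg)
    (sum_fiber_eq_one ν W hWM)
  obtain ⟨hVint, hVeq⟩ := integral_fiber ν W hWM Vt
  rw [hVeq] at h2
  -- the partition function
  have h3 : ∑ w, Real.exp (-Vt w) ≤ D * Real.exp (η * (n + M : ℕ)) *
      (1 + k * Real.exp (-L)) ^ n := by
    rw [Fintype.sum_prod_type]
    have hs : ∀ a : Fin (n + M) → Bool, ∀ b : Fin n → Option (Fin k),
        Real.exp (-Vt (a, b)) = Real.exp (-V (n + M) a) *
          ∏ i, (if b i = none then 1 else Real.exp (-L)) := by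
      intro a b
      simp only [hVt]
      rw [neg_add, Real.exp_add, ← Finset.sum_neg_distrib, Real.exp_sum]
      congr 1
      refine Finset.prod_congr rfl fun i _ => ?_
      split_ifs <;> simp
    simp only [hs]
    simp only [← Finset.mul_sum]
    rw [← Finset.sum_mul]
    have hp : ∑ b : Fin n → Option (Fin k), ∏ i, (if b i = none then (1:ℝ) else Real.exp (-L)) =
        (1 + k * Real.exp (-L)) ^ n := by
      rw [← Fintype.sum_pow (fun o : Option (Fin k) => if o = none then (1:ℝ) else Real.exp (-L)) n]
      congr 1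
      rw [Fintype.sum_option]
      simp
    rw [hp]
    exact mul_le_mul_of_nonneg_right (hZ _) (by positivity)
  have h4 : Real.log (∑ w, Real.exp (-Vt w)) ≤ Real.log D + η * (n + M) +
      n * Real.log (1 + k * Real.exp (-L)) := by
    have hpos : 0 < ∑ w, Real.exp (-Vt w) :=
      Finset.sum_pos (fun i _ => Real.exp_pos _) Finset.univ_nonempty
    refine (Real.log_le_log hpos h3).trans (le_of_eq ?_)
    have hk : (0:ℝ) < 1 + k * Real.exp (-L) := by positivity
    rw [Real.log_mul (by positivity) (by positivity), Real.log_mul (by positivity) (by positivity),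
      Real.log_exp, Real.log_pow]
    push_cast
    ring
  -- the expected cost
  have h5 : ∫ z, Vt (W z) ∂ν ≤ (n + M) * ∫ z, Ψ z ∂ν + L * (n * δ) := by
    have hint1 : ∀ j, Integrable (fun z => Ψ (T^[j] z)) ν := fun j =>
      (hT.iterate j).integrable_comp_of_integrable hΨ
    have hint2 : ∀ i : Fin n, Integrable
        (fun z => if e (T^[i] z) = none then (0:ℝ) else L) ν := fun i =>
      (integral_fiber ν (fun z => e (T^[i] z)) (heM.comp (hTm.iterate i))
        (fun o => if o = none then (0:ℝ) else L)).1
    have hle : ∀ z, Vt (W z) ≤ ∑ j ∈ Finset.range (n + M), Ψ (T^[j] z) +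
        ∑ i : Fin n, (if e (T^[i] z) = none then (0:ℝ) else L) := by
      intro z
      simp only [hVt, hW]
      exact add_le_add (hV _ z) le_rfl
    refine (integral_mono hVint ((integrable_finsetSum _ fun j _ => hint1 j).add
      (integrable_finsetSum _ fun i _ => hint2 i)) hle).trans ?_
    simp only [Pi.add_apply]
    rw [integral_add (integrable_finsetSum _ fun j _ => hint1 j)
      (integrable_finsetSum _ fun i _ => hint2 i), integral_finsetSum _ fun j _ => hint1 j,
      integral_finsetSum _ fun i _ => hint2 i]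
    refine add_le_add (le_of_eq ?_) ?_
    · have : ∀ j ∈ Finset.range (n + M), ∫ z, Ψ (T^[j] z) ∂ν = ∫ z, Ψ z ∂ν := by
        intro j _
        have hmp := hT.iterate j
        have := integral_map (μ := ν) hmp.measurable.aemeasurable
          (f := Ψ) (by rw [hmp.map_eq]; exact hΨ.1)
        rw [hmp.map_eq] at this
        exact this.symm
      rw [Finset.sum_congr rfl this, Finset.sum_const, Finset.card_range, nsmul_eq_mul]
      push_cast; ring
    · have : ∀ i : Fin n, ∫ z, (if e (T^[i] z) = none then (0:ℝ) else L) ∂ν ≤ L * δ := by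
        intro i
        have hmp := hT.iterate i
        have hset : MeasurableSet {z | ξ (T^[m] z) = F (nameOf T β M z)}ᶜ := hEq.compl
        have hfun : (fun z => (if e (T^[i] z) = none then (0:ℝ) else L)) =
            (T^[i] ⁻¹' {z | ξ (T^[m] z) = F (nameOf T β M z)}ᶜ).indicator (fun _ => L) := by
          funext z
          by_cases h : ξ (T^[m] (T^[i] z)) = F (nameOf T β M (T^[i] z))
          · rw [Set.indicator_of_notMem (by simpa using h)]
            simp [he, h]
          · rw [Set.indicator_of_mem (by simpa using h)]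
            simp [he, h]
        rw [hfun, integral_indicator_const _ (hmp.measurable hset), measureReal_def,
          hmp.measure_preimage hset.nullMeasurableSet, smul_eq_mul, mul_comm, ← measureReal_def]
        exact mul_le_mul_of_nonneg_left hF hL
      refine (Finset.sum_le_sum fun i _ => this i).trans (le_of_eq ?_)
      rw [Finset.sum_const, Finset.card_univ, Fintype.card_fin, nsmul_eq_mul]
      ring
  have h6 : shannon ν W ≤ _ := h2
  linarith

end Pool.Agent.H82.Hen
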