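import Pool.Agent.H82.Hen.Entropy2

/-!
# Main entropy bound, limit form
-/

open MeasureTheory Filter Topology Set
open scoped NNReal

noncomputable section

namespace Pool.Agent.H82.Hen

variable {α : Type*} [MeasurableSpace α]

theorem partEntropy_le {T : α → α} (ν : Measure α) [IsProbabilityMeasure ν]
    (hT : MeasurePreserving T ν ν) (β : α → Bool) (hβ : Measurable β) {k : ℕ} (ξ : α → Fin k)
    (hξ : Measurable ξ) (Ψ : α → ℝ) (hΨ : Integrable Ψ ν) (V : ∀ N, (Fin N → Bool) → ℝ)
    (hV : ∀ N z, V N (nameOf T β N z) ≤ ∑ j ∈ Finset.range N, Ψ (T^[j] z))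
    (D η : ℝ) (hD : 0 < D)
    (hZ : ∀ N : ℕ, ∑ w : Fin N → Bool, Real.exp (-V N w) ≤ D * Real.exp (η * N))
    (happ : ∀ δ > 0, ∃ (m M : ℕ) (F : (Fin M → Bool) → Fin k),
      ν.real {z | ξ (T^[m] z) ≠ F (nameOf T β M z)} ≤ δ) :
    partEntropy T ν ξ ≤ ((∫ z, Ψ z ∂ν + η : ℝ) : EReal) := by
  have key : ∀ ε : ℝ, 0 < ε → partEntropy T ν ξ ≤ ((∫ z, Ψ z ∂ν + η + ε : ℝ) : EReal) := by
    intro ε hε
    -- choose L
    have hlim : Tendsto (fun L : ℝ => Real.log (1 + k * Real.exp (-L))) atTop (𝓝 0) := by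
      have h1 : Tendsto (fun L : ℝ => 1 + (k : ℝ) * Real.exp (-L)) atTop (𝓝 (1 + k * 0)) :=
        (tendsto_const_nhds.mul Real.tendsto_exp_neg_atTop_nhds_zero).const_add 1
      have h2 := (Real.continuousAt_log (x := 1 + k * 0) (by simp)).tendsto.comp h1
      have h3 : Real.log (1 + (k:ℝ) * 0) = 0 := by simp
      rw [h3] at h2
      exact h2
    obtain ⟨L, hL1, hL2⟩ : ∃ L : ℝ, 0 ≤ L ∧ Real.log (1 + k * Real.exp (-L)) ≤ ε / 2 := by
      have h1 := hlim.eventually (gt_mem_nhds (show (0:ℝ) < ε / 2 by positivity))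
      obtain ⟨L, hL⟩ := (h1.and (eventually_ge_atTop 0)).exists
      exact ⟨L, hL.2, hL.1.le⟩
    obtain ⟨m, M, F, hF⟩ := happ (ε / (2 * (L + 1))) (by positivity)
    have hLδ : L * (ε / (2 * (L + 1))) ≤ ε / 2 := by
      have : L * (ε / (2 * (L + 1))) = ε / 2 * (L / (L + 1)) := by
        field_simp
      rw [this]
      have h2 : L / (L + 1) ≤ 1 := by
        rw [div_le_one (by positivity)]; linarith
      nlinarith
    set I := ∫ z, Ψ z ∂ν with hI
    set δ := ε / (2 * (L + 1)) with hδ
    -- comparison sequence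
    set b : ℕ → ℝ := fun n => I + (M * I + Real.log D + η * M) / n + L * δ + η +
      Real.log (1 + k * Real.exp (-L)) with hb
    have hle : ∀ᶠ n : ℕ in atTop, shannon ν (itinerary T ξ n) / n ≤ b n := by
      filter_upwards [eventually_gt_atTop 0] with n hn
      have h1 := shannon_itinerary_le ν hT β hβ ξ hξ Ψ hΨ V hV D η hD hZ δ L hL1 m M F hF n
      have hn' : (0:ℝ) < n := by exact_mod_cast hn
      rw [div_le_iff₀ hn']
      have h2 : b n * n = (n + M) * I + L * (n * δ) + (Real.log D + η * (n + M)) +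
          n * Real.log (1 + k * Real.exp (-L)) := by
        simp only [hb]
        field_simp
        ring
      rw [h2]
      exact h1
    have hlimb : Tendsto b atTop (𝓝 (I + 0 + L * δ + η + Real.log (1 + k * Real.exp (-L)))) := by
      refine Tendsto.add_const _ (Tendsto.add_const _ (Tendsto.add_const _ ?_))
      refine Tendsto.const_add _ ?_
      exact tendsto_const_nhds.div_atTop tendsto_natCast_atTop_atTop
    have hlimE : Tendsto (fun n => ((b n : ℝ) : EReal)) atTop
        (𝓝 ((I + 0 + L * δ + η + Real.log (1 + k * Real.exp (-L)) : ℝ) : EReal)) :=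
      (continuous_coe_real_ereal.tendsto _).comp hlimb
    have h3 : partEntropy T ν ξ ≤
        ((I + 0 + L * δ + η + Real.log (1 + k * Real.exp (-L)) : ℝ) : EReal) := by
      rw [← hlimE.limsup_eq]
      unfold partEntropy
      refine limsup_le_limsup ?_
      filter_upwards [hle] with n hn
      exact EReal.coe_le_coe_iff.2 hn
    refine h3.trans (EReal.coe_le_coe_iff.2 ?_)
    linarith
  -- let ε → 0
  refine le_of_forall_gt_imp_ge_of_dense ?_
  intro a ha
  induction a with
  | bot => exact absurd ha (by simp)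
  | top => exact le_top
  | coe a =>
    have ha' : ∫ z, Ψ z ∂ν + η < a := EReal.coe_lt_coe_iff.1 ha
    have := key (a - (∫ z, Ψ z ∂ν + η)) (by linarith)
    have h2 : ∫ z, Ψ z ∂ν + η + (a - (∫ z, Ψ z ∂ν + η)) = a := by ring
    rw [h2] at this
    exact this

theorem ksEntropy_nonneg (T : α → α) (ν : Measure α) [IsProbabilityMeasure ν] :
    0 ≤ ksEntropy T ν := by
  have h1 : partEntropy (k := 1) T ν (fun _ => 0) = 0 := by
    unfold partEntropy
    have : ∀ n, shannon ν (itinerary T (fun _ => (0 : Fin 1)) n) = 0 := by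
      intro n
      unfold shannon
      refine Finset.sum_eq_zero fun i _ => ?_
      have : itinerary T (fun _ => (0 : Fin 1)) n ⁻¹' {i} = Set.univ := by
        ext z
        simp only [mem_preimage, mem_singleton_iff, mem_univ, iff_true]
        funext j
        exact Subsingleton.elim _ _
      rw [this]
      simp
    simp only [this]
    simp
  unfold ksEntropy
  rw [← h1]
  refine le_iSup_of_le 1 ?_
  refine le_iSup_of_le (fun _ => (0 : Fin 1)) ?_
  exact le_iSup_of_le (measurable_const) le_rfl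

end Pool.Agent.H82.Hen
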