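import Pool.Agent.H82.Hen.Disc

/-!
# The odometer measure on sequences
-/

open MeasureTheory Set Filter Topology
open scoped NNReal ENNReal

noncomputable section

namespace Pool.Agent.H82.Hen

/-- the 2-adic integers -/
abbrev Z2 : Type := ℤ_[2]

instance : MeasurableSpace Z2 := borel _
instance : BorelSpace Z2 := ⟨rfl⟩

/-- normalised Haar measure. -/
def haarZ2 : Measure Z2 := Measure.addHaarMeasure (⊤ : TopologicalSpace.PositiveCompacts Z2)

instance : IsProbabilityMeasure haarZ2 := by
  refine ⟨?_⟩
  have := Measure.addHaarMeasure_self (K₀ := (⊤ : TopologicalSpace.PositiveCompacts Z2))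
  simpa [haarZ2] using this

instance : haarZ2.IsAddHaarMeasure := by unfold haarZ2; infer_instance

theorem mp_add (a : Z2) : MeasurePreserving (fun z : Z2 => z + a) haarZ2 haarZ2 :=
  measurePreserving_add_right haarZ2 a

/-- The sequence attached to a 2-adic integer. -/
def seq (z : Z2) : ℤ → Bool := fun n => decide (Odd ((n : Z2) - z).valuation)

theorem valuation_intCast {d : ℤ} (hd : d ≠ 0) : ((d : Z2)).valuation = padicValInt 2 d := by
  have h := PadicInt.valuation_coe (p := 2) (d : Z2)
  have h2 : (((d : Z2)) : ℚ_[2]) = ((d : ℚ) : ℚ_[2]) := by push_cast; rfl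
  rw [h2, Padic.valuation_ratCast, padicValRat.of_int] at h
  exact_mod_cast h.symm

theorem seq_shift (z : Z2) : shift 1 (seq z) = seq (z + (-1)) := by
  funext n
  simp only [shift, seq]
  have : ((n + 1 : ℤ) : Z2) - z = (n : Z2) - (z + -1) := by push_cast; ring
  rw [this]

theorem seq_regAt (z : Z2) (k : ℕ) : ∃ r : ℤ, ∀ a b, RegAt k a b (seq z) r := by
  refine ⟨z.appr k, fun a b n _ _ hn => ?_⟩
  simp only [seq, par]
  obtain ⟨c, hc⟩ := Ideal.mem_span_singleton.1 (PadicInt.appr_spec (p := 2) k z)
  set r : ℤ := ((z.appr k : ℕ) : ℤ) with hr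
  have hrc : z = (r : Z2) + 2 ^ k * c := by
    have : (r : Z2) = ((z.appr k : ℕ) : Z2) := by simp [hr]
    rw [this]
    have h2 : ((2 : ℕ) : Z2) = 2 := by norm_num
    rw [h2] at hc
    rw [← hc]; ring
  have hnr : n - r ≠ 0 := fun h0 => hn (h0 ▸ dvd_zero _)
  have hv : padicValInt 2 (n - r) < k := by
    by_contra hge
    push Not at hge
    exact hn ((padicValInt_dvd_iff (p := 2) k (n - r)).2 (Or.inr hge))
  have e : (n : Z2) - z = ((n - r : ℤ) : Z2) - 2 ^ k * c := by
    rw [hrc]; push_cast; ring
  have hval : ((n : Z2) - z).valuation = padicValInt 2 (n - r) := by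
    rw [e]
    set x : Z2 := ((n - r : ℤ) : Z2) with hx
    have hxv : x.valuation = padicValInt 2 (n - r) := valuation_intCast hnr
    have hx0 : x ≠ 0 := by rw [hx]; exact_mod_cast hnr
    -- membership characterisation of valuations
    have hmem : ∀ j ≤ k, ∀ y : Z2, (y - 2 ^ k * c ∈ Ideal.span {((2 : ℕ) : Z2) ^ j} ↔
        y ∈ Ideal.span {((2 : ℕ) : Z2) ^ j}) := by
      intro j hj y
      have h1 : (2 : Z2) ^ k * c ∈ Ideal.span {((2 : ℕ) : Z2) ^ j} := by
        rw [Ideal.mem_span_singleton]
        refine Dvd.dvd.mul_right ?_ c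
        push_cast
        exact pow_dvd_pow 2 hj
      constructor
      · intro h; simpa using Ideal.add_mem _ h h1
      · intro h; exact Ideal.sub_mem _ h h1
    have hne : x - 2 ^ k * c ≠ 0 := by
      intro h0
      have h1 : x - 2 ^ k * c ∈ Ideal.span {((2 : ℕ) : Z2) ^ k} := by rw [h0]; exact Ideal.zero_mem _
      rw [hmem k le_rfl, PadicInt.mem_span_pow_iff_le_valuation x hx0, hxv] at h1
      omega
    have key : ∀ j ≤ k, (j ≤ (x - 2 ^ k * c).valuation ↔ j ≤ x.valuation) := by
      intro j hj
      rw [← PadicInt.mem_span_pow_iff_le_valuation _ hne,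
        ← PadicInt.mem_span_pow_iff_le_valuation _ hx0]
      exact hmem j hj x
    rw [hxv] at key
    have k1 := (key (padicValInt 2 (n - r)) hv.le).2 le_rfl
    have k2 := key (padicValInt 2 (n - r) + 1) hv
    omega
  rw [hval]

theorem good_seq (z : Z2) : Good (seq z) := by
  intro k a b _
  obtain ⟨r, hr⟩ := seq_regAt z k
  exact ⟨r, hr a b⟩

theorem measurable_seq : Measurable seq := by
  refine measurable_pi_iff.2 fun n => ?_
  have h1 : MeasurableSet {x : Z2 | Odd x.valuation} := by
    have : {x : Z2 | Odd x.valuation} =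
        ⋃ i : ℕ, ⋃ _ : Odd i, {x : Z2 | ‖x‖ = (2 : ℝ) ^ (-(i : ℤ))} := by
      ext x
      simp only [mem_ofPred_eq, mem_iUnion, exists_prop]
      constructor
      · intro hx
        have hx0 : x ≠ 0 := by
          rintro rfl
          simp at hx
        exact ⟨x.valuation, hx, by
          have := PadicInt.norm_eq_zpow_neg_valuation (p := 2) hx0
          rw [this]; norm_num⟩
      · rintro ⟨i, hi, hxi⟩
        have hx0 : x ≠ 0 := by
          rintro rfl
          rw [norm_zero] at hxi
          have : (0 : ℝ) < 2 ^ (-(i : ℤ)) := by positivity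
          linarith
        have h2 := PadicInt.norm_eq_zpow_neg_valuation (p := 2) hx0
        rw [hxi] at h2
        have h3 : -(i : ℤ) = -(x.valuation : ℤ) :=
          zpow_right_injective₀ (a := (2 : ℝ)) (by norm_num) (by norm_num) (by
            simpa using h2)
        have h4 : i = x.valuation := by omega
        rw [← h4]; exact hi
    rw [this]
    refine MeasurableSet.iUnion fun i => MeasurableSet.iUnion fun _ => ?_
    exact (isClosed_eq continuous_norm continuous_const).measurableSet
  have h2 : Measurable (fun z : Z2 => (n : Z2) - z) :=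
    (continuous_const.sub continuous_id).measurable
  refine measurable_to_bool ?_
  have : (fun z => seq z n) ⁻¹' {true} = (fun z : Z2 => (n : Z2) - z) ⁻¹' {x | Odd x.valuation} := by
    ext z
    simp [seq]
  rw [this]
  exact h2 h1

/-- The invariant measure on sequences. -/
def muSeq : Measure (ℤ → Bool) := haarZ2.map seq

instance : IsProbabilityMeasure muSeq :=
  Measure.isProbabilityMeasure_map measurable_seq.aemeasurable

theorem muSeq_inv : MeasurePreserving (shift 1) muSeq muSeq := by
  refine ⟨measurable_shift 1, ?_⟩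
  unfold muSeq
  rw [Measure.map_map (measurable_shift 1) measurable_seq]
  have : shift 1 ∘ seq = seq ∘ fun z => z + (-1) := by
    funext z; exact seq_shift z
  rw [this, ← Measure.map_map measurable_seq (mp_add (-1)).measurable, (mp_add (-1)).map_eq]

theorem measurableSet_good : MeasurableSet {s : ℤ → Bool | Good s} := by
  have : {s : ℤ → Bool | Good s} = ⋂ k : ℕ, ⋂ a : ℤ, ⋂ b : ℤ, ⋂ _ : b - a ≤ 2 ^ (k + 1),
      ⋃ r : ℤ, {s | RegAt k a b s r} := by
    ext s; simp [Good, Reg]
  rw [this]
  refine MeasurableSet.iInter fun k => MeasurableSet.iInter fun a => MeasurableSet.iInter fun b =>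
    MeasurableSet.iInter fun _ => MeasurableSet.iUnion fun r => measurableSet_regAt _ _ _ _

theorem muSeq_good : ∀ᵐ s ∂muSeq, Good s := by
  unfold muSeq
  rw [ae_map_iff measurable_seq.aemeasurable measurableSet_good]
  exact Eventually.of_forall good_seq

end Pool.Agent.H82.Hen
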