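import Mathlib

/-!
# Regular words (period-doubling Toeplitz structure)

`RegAt k a b s r`: on the window `[a, b)` the sequence `s` agrees, outside the class
`r + 2ᵏℤ`, with the parity of the `2`-adic valuation of `n - r`.
-/

open Set

noncomputable section

namespace Pool.Agent.H82.Hen

/-- parity of the 2-adic valuation. -/
def par (d : ℤ) : Bool := decide (Odd (padicValInt 2 d))

/-- `s` is `k`-regular with phase `r` on the window `[a, b)`. -/
def RegAt (k : ℕ) (a b : ℤ) (s : ℤ → Bool) (r : ℤ) : Prop :=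
  ∀ n, a ≤ n → n < b → ¬ ((2 : ℤ) ^ k ∣ n - r) → s n = par (n - r)

/-- `s` is `k`-regular on the window `[a, b)`. -/
def Reg (k : ℕ) (a b : ℤ) (s : ℤ → Bool) : Prop := ∃ r, RegAt k a b s r

/-- shift of a two-sided sequence. -/
def shift (j : ℤ) (s : ℤ → Bool) : ℤ → Bool := fun n => s (n + j)

theorem shift_shift (i j : ℤ) (s : ℤ → Bool) : shift i (shift j s) = shift (i + j) s := by
  funext n; simp [shift, add_assoc]

theorem padicVal_congr {k : ℕ} {d d' : ℤ} (h : (2 : ℤ) ^ k ∣ d - d') (hd : ¬ (2 : ℤ) ^ k ∣ d) :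
    padicValInt 2 d = padicValInt 2 d' := by
  have hd' : ¬ (2 : ℤ) ^ k ∣ d' := fun h' => hd (by simpa using dvd_add h h')
  have hd0 : d ≠ 0 := fun h0 => hd (h0 ▸ dvd_zero _)
  have hd0' : d' ≠ 0 := fun h0 => hd' (h0 ▸ dvd_zero _)
  have aux : ∀ x y : ℤ, (2 : ℤ) ^ k ∣ x - y → ¬ (2 : ℤ) ^ k ∣ x → x ≠ 0 → y ≠ 0 →
      padicValInt 2 x ≤ padicValInt 2 y := by
    intro x y hxy hx hx0 hy0
    have h1 : (2 : ℤ) ^ (padicValInt 2 x) ∣ x :=
      (padicValInt_dvd_iff _ _).2 (Or.inr le_rfl)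
    have hlt : padicValInt 2 x < k := by
      by_contra hge
      push Not at hge
      exact hx ((pow_dvd_pow 2 hge).trans h1)
    have h2 : (2 : ℤ) ^ (padicValInt 2 x) ∣ x - y := (pow_dvd_pow 2 hlt.le).trans hxy
    have h3 : (2 : ℤ) ^ (padicValInt 2 x) ∣ y := by
      have := dvd_sub h1 h2
      simpa using this
    rcases (padicValInt_dvd_iff _ _).1 h3 with h4 | h4
    · exact absurd h4 hy0
    · exact h4
  refine le_antisymm (aux _ _ h hd hd0 hd0') (aux _ _ ?_ hd' hd0' hd0)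
  rw [← neg_sub]
  exact (dvd_neg).2 h

theorem par_congr {k : ℕ} {d d' : ℤ} (h : (2 : ℤ) ^ k ∣ d - d') (hd : ¬ (2 : ℤ) ^ k ∣ d) :
    par d = par d' := by
  unfold par
  rw [padicVal_congr h hd]

theorem Reg.zero (a b : ℤ) (s : ℤ → Bool) : Reg 0 a b s :=
  ⟨0, fun n _ _ h => absurd (by simp) h⟩

theorem RegAt.mono {k : ℕ} {a b a' b' : ℤ} {s : ℤ → Bool} {r : ℤ} (h : RegAt k a b s r)
    (ha : a ≤ a') (hb : b' ≤ b) : RegAt k a' b' s r :=
  fun n h1 h2 => h n (ha.trans h1) (h2.trans_le hb)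

theorem Reg.mono {k : ℕ} {a b a' b' : ℤ} {s : ℤ → Bool} (h : Reg k a b s)
    (ha : a ≤ a') (hb : b' ≤ b) : Reg k a' b' s := by
  obtain ⟨r, hr⟩ := h
  exact ⟨r, hr.mono ha hb⟩

theorem regAt_shift {k : ℕ} {a b : ℤ} {s : ℤ → Bool} {r j : ℤ} :
    RegAt k a b (shift j s) r ↔ RegAt k (a + j) (b + j) s (r + j) := by
  constructor
  · intro h n h1 h2 h3
    have e : n - j - r = n - (r + j) := by ring
    have := h (n - j) (by linarith) (by linarith) (by rw [e]; exact h3)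
    rw [e] at this
    simpa [shift] using this
  · intro h n h1 h2 h3
    have e : n + j - (r + j) = n - r := by ring
    have := h (n + j) (by linarith) (by linarith) (by rw [e]; exact h3)
    rw [e] at this
    simpa [shift] using this

theorem reg_shift {k : ℕ} {a b : ℤ} {s : ℤ → Bool} {j : ℤ} :
    Reg k a b (shift j s) ↔ Reg k (a + j) (b + j) s := by
  constructor
  · rintro ⟨r, hr⟩
    exact ⟨r + j, regAt_shift.1 hr⟩
  · rintro ⟨r, hr⟩
    refine ⟨r - j, regAt_shift.2 ?_⟩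
    simpa using hr

theorem regAt_congr {k : ℕ} {a b : ℤ} {s s' : ℤ → Bool} {r : ℤ}
    (h : ∀ n, a ≤ n → n < b → s n = s' n) (hr : RegAt k a b s r) : RegAt k a b s' r :=
  fun n h1 h2 h3 => (h n h1 h2).symm.trans (hr n h1 h2 h3)

theorem reg_congr {k : ℕ} {a b : ℤ} {s s' : ℤ → Bool}
    (h : ∀ n, a ≤ n → n < b → s n = s' n) : Reg k a b s ↔ Reg k a b s' :=
  ⟨fun ⟨r, hr⟩ => ⟨r, regAt_congr h hr⟩,
    fun ⟨r, hr⟩ => ⟨r, regAt_congr (fun n h1 h2 => (h n h1 h2).symm) hr⟩⟩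

/-- changing the phase modulo `2ᵏ`. -/
theorem RegAt.phase {k : ℕ} {a b : ℤ} {s : ℤ → Bool} {r r' : ℤ} (h : RegAt k a b s r)
    (hr : (2 : ℤ) ^ k ∣ r - r') : RegAt k a b s r' := by
  intro n h1 h2 h3
  have e : n - r' = (n - r) + (r - r') := by ring
  have h4 : ¬ (2 : ℤ) ^ k ∣ n - r := fun h5 => h3 (by rw [e]; exact dvd_add h5 hr)
  rw [h n h1 h2 h4]
  refine par_congr ?_ h4
  have : (n - r) - (n - r') = -(r - r') := by ring
  rw [this]
  exact (dvd_neg).2 hr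

/-- The two-sided sequence extending a finite word by `false`. -/
def ext {N : ℕ} (w : Fin N → Bool) : ℤ → Bool := fun n =>
  if h : 0 ≤ n ∧ n < N then w ⟨n.toNat, by omega⟩ else false

theorem ext_apply {N : ℕ} (w : Fin N → Bool) (i : Fin N) : ext w (i : ℤ) = w i := by
  have : (0 : ℤ) ≤ (i : ℤ) ∧ ((i : ℕ) : ℤ) < N := ⟨by positivity, by exact_mod_cast i.2⟩
  unfold ext
  rw [dif_pos this]
  simp

theorem card_reg_le (k : ℕ) [DecidablePred fun u : Fin (2 ^ k) → Bool => Reg k 0 (2 ^ k) (ext u)] :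
    (Finset.univ.filter fun u : Fin (2 ^ k) → Bool => Reg k 0 (2 ^ k) (ext u)).card ≤
      2 ^ (k + 1) := by
  classical
  set Φ : Fin (2 ^ k) × Bool → (Fin (2 ^ k) → Bool) := fun p n =>
    if (2 : ℤ) ^ k ∣ ((n : ℕ) : ℤ) - ((p.1 : ℕ) : ℤ) then p.2
    else par (((n : ℕ) : ℤ) - ((p.1 : ℕ) : ℤ)) with hΦ
  have hsub : (Finset.univ.filter fun u : Fin (2 ^ k) → Bool => Reg k 0 (2 ^ k) (ext u)) ⊆
      Finset.univ.image Φ := by
    intro u hu
    rw [Finset.mem_filter] at hu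
    obtain ⟨-, r, hr⟩ := hu
    have hpos : (0 : ℤ) < 2 ^ k := by positivity
    have hr0 : 0 ≤ r % 2 ^ k := Int.emod_nonneg _ hpos.ne'
    have hr1 : r % 2 ^ k < 2 ^ k := Int.emod_lt_of_pos _ hpos
    have hdvd : (2 : ℤ) ^ k ∣ r - r % 2 ^ k := Int.dvd_self_sub_emod
    have hr' := hr.phase hdvd
    set r0 := (r % 2 ^ k).toNat with hr0def
    have hr0lt : r0 < 2 ^ k := by
      have : ((r0 : ℕ) : ℤ) < ((2 ^ k : ℕ) : ℤ) := by
        rw [hr0def, Int.toNat_of_nonneg hr0]; push_cast; exact hr1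
      exact_mod_cast this
    have hr0eq : ((r0 : ℕ) : ℤ) = r % 2 ^ k := by rw [hr0def, Int.toNat_of_nonneg hr0]
    rw [← hr0eq] at hr'
    refine Finset.mem_image.2 ⟨(⟨r0, hr0lt⟩, u ⟨r0, hr0lt⟩), Finset.mem_univ _, ?_⟩
    funext n
    simp only [hΦ]
    split_ifs with hd
    · have hn : (n : ℕ) = r0 := by
        have h1 : |((n : ℕ) : ℤ) - ((r0 : ℕ) : ℤ)| < 2 ^ k := by
          rw [abs_lt]
          have h2 : ((n : ℕ) : ℤ) < ((2 ^ k : ℕ) : ℤ) := by exact_mod_cast n.2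
          have h3 : ((r0 : ℕ) : ℤ) < ((2 ^ k : ℕ) : ℤ) := by exact_mod_cast hr0lt
          push_cast at h2 h3
          constructor <;> linarith [Int.natCast_nonneg n.1, Int.natCast_nonneg r0]
        have := Int.eq_zero_of_abs_lt_dvd hd h1
        omega
      congr 1
      exact Fin.ext hn.symm
    · have h2 : ((n : ℕ) : ℤ) < 2 ^ k := by exact_mod_cast n.2
      have := hr' (n : ℕ) (by positivity) h2 hd
      rw [ext_apply] at this
      exact this.symm
  refine (Finset.card_le_card hsub).trans (Finset.card_image_le.trans ?_)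
  simp [pow_succ]

end Pool.Agent.H82.Hen
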