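import Pool.Agent.H82.Hen.Defs
import Pool.Agent.H82.Hen.Words

/-!
# The horseshoe of the Hénon map `(x, y) ↦ (10 x² - 10 - y, x)`
-/

open MeasureTheory Set Filter Topology
open scoped NNReal

noncomputable section

namespace Pool.Agent.H82.Hen

/-- The Hénon map. -/
def hf (z : ℂ × ℂ) : ℂ × ℂ := (10 * z.1 ^ 2 - 10 - z.2, z.1)

/-- The inverse of the Hénon map. -/
def hg (z : ℂ × ℂ) : ℂ × ℂ := (z.2, 10 * z.2 ^ 2 - 10 - z.1)

theorem hf_eq : hf = henonMap 1 (Polynomial.C 10 * Polynomial.X ^ 2 - Polynomial.C 10) := by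
  funext z
  simp [hf, henonMap]

theorem isHenon_hf : IsHenon hf := by
  rw [hf_eq]
  refine IsHenon.single 1 _ one_ne_zero ?_
  have h : (Polynomial.C (10 : ℂ) * Polynomial.X ^ 2 - Polynomial.C 10).natDegree = 2 := by
    rw [Polynomial.natDegree_sub_C, Polynomial.natDegree_C_mul (by norm_num),
      Polynomial.natDegree_X_pow]
  rw [h]

theorem hg_hf (z : ℂ × ℂ) : hg (hf z) = z := by
  ext <;> simp [hf, hg]

theorem hf_hg (z : ℂ × ℂ) : hf (hg z) = z := by
  ext <;> simp [hf, hg]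

theorem continuous_hf : Continuous hf := by
  unfold hf; fun_prop

theorem continuous_hg : Continuous hg := by
  unfold hg; fun_prop

/-- The Hénon map as a permutation. -/
def hE : Equiv.Perm (ℂ × ℂ) := ⟨hf, hg, hg_hf, hf_hg⟩

theorem hE_apply (z : ℂ × ℂ) : hE z = hf z := rfl

theorem hE_symm_apply (z : ℂ × ℂ) : hE⁻¹ z = hg z := rfl

/-- The first coordinate of the `n`-th iterate. -/
def X (n : ℤ) (z : ℂ × ℂ) : ℂ := ((hE ^ n) z).1

theorem hE_zpow_succ (n : ℤ) (z : ℂ × ℂ) : (hE ^ (n + 1)) z = hf ((hE ^ n) z) := by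
  rw [add_comm, zpow_add, zpow_one]; rfl

theorem hE_zpow_pred (n : ℤ) (z : ℂ × ℂ) : (hE ^ (n - 1)) z = hg ((hE ^ n) z) := by
  have : n - 1 = -1 + n := by ring
  rw [this, zpow_add, zpow_neg_one]; rfl

theorem snd_zpow (n : ℤ) (z : ℂ × ℂ) : ((hE ^ n) z).2 = X (n - 1) z := by
  unfold X
  rw [hE_zpow_pred]
  rfl

theorem X_zero (z : ℂ × ℂ) : X 0 z = z.1 := by simp [X]

theorem X_neg_one (z : ℂ × ℂ) : X (-1) z = z.2 := by
  have := snd_zpow 0 z
  simp only [zpow_zero, zero_sub] at this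
  rw [← this]; rfl

theorem X_succ (n : ℤ) (z : ℂ × ℂ) : X (n + 1) z = 10 * X n z ^ 2 - 10 - X (n - 1) z := by
  have h : X (n + 1) z = (hf ((hE ^ n) z)).1 := by
    unfold X; rw [hE_zpow_succ]
  rw [h, ← snd_zpow]
  rfl

theorem X_hf (n : ℤ) (z : ℂ × ℂ) : X n (hf z) = X (n + 1) z := by
  unfold X
  rw [zpow_add, zpow_one]
  rfl

theorem continuous_zpow : ∀ n : ℤ, Continuous (fun z => (hE ^ n) z) := by
  intro n
  induction n using Int.induction_on with
  | zero =>
    have : (fun z : ℂ × ℂ => (hE ^ (0 : ℤ)) z) = id := by funext z; simp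
    rw [this]; exact continuous_id
  | succ n ih =>
    have : (fun z => (hE ^ ((n : ℤ) + 1)) z) = fun z => hf ((hE ^ (n : ℤ)) z) := by
      funext z; exact hE_zpow_succ _ _
    rw [this]; exact continuous_hf.comp ih
  | pred n ih =>
    have : (fun z => (hE ^ (-(n : ℤ) - 1)) z) = fun z => hg ((hE ^ (-(n : ℤ))) z) := by
      funext z; exact hE_zpow_pred _ _
    rw [this]; exact continuous_hg.comp ih

theorem continuous_X (n : ℤ) : Continuous (X n) := continuous_fst.comp (continuous_zpow n)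

/-- The set of bounded orbits. -/
def hK : Set (ℂ × ℂ) := {z | ∀ n : ℤ, ‖X n z‖ ≤ 2}

theorem isClosed_hK : IsClosed hK := by
  have : hK = ⋂ n : ℤ, {z | ‖X n z‖ ≤ 2} := by ext z; simp [hK]
  rw [this]
  exact isClosed_iInter fun n => isClosed_le (continuous_X n).norm continuous_const

theorem isCompact_hK : IsCompact hK := by
  refine Metric.isCompact_of_isClosed_isBounded isClosed_hK ?_
  refine (Metric.isBounded_closedBall (x := (0 : ℂ × ℂ)) (r := 2)).subset ?_
  intro z hz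
  rw [mem_closedBall_zero_iff, Prod.norm_def]
  refine max_le ?_ ?_
  · rw [← X_zero]; exact hz 0
  · rw [← X_neg_one]; exact hz (-1)

theorem X_sq (n : ℤ) (z : ℂ × ℂ) : X n z ^ 2 = 1 + (X (n + 1) z + X (n - 1) z) / 10 := by
  rw [X_succ]; ring

theorem re_sq {z : ℂ × ℂ} (hz : z ∈ hK) (n : ℤ) : 3 / 5 ≤ (X n z).re ^ 2 := by
  have h1 := X_sq n z
  have h2 := congrArg Complex.re h1
  have h3 : (X n z ^ 2).re = (X n z).re ^ 2 - (X n z).im ^ 2 := by
    rw [sq, Complex.mul_re]; ring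
  have h4 : (1 + (X (n + 1) z + X (n - 1) z) / 10).re =
      1 + ((X (n + 1) z).re + (X (n - 1) z).re) / 10 := by
    rw [Complex.add_re, Complex.one_re]
    congr 1
    have : (10 : ℂ) = ((10 : ℝ) : ℂ) := by norm_num
    rw [this, Complex.div_ofReal_re, Complex.add_re]
  rw [h3, h4] at h2
  have h5 := abs_le.1 ((Complex.abs_re_le_norm _).trans (hz (n + 1)))
  have h6 := abs_le.1 ((Complex.abs_re_le_norm _).trans (hz (n - 1)))
  nlinarith [sq_nonneg (X n z).im]

theorem abs_re {z : ℂ × ℂ} (hz : z ∈ hK) (n : ℤ) : 3 / 4 ≤ |(X n z).re| := by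
  have h := re_sq hz n
  rw [← sq_abs] at h
  nlinarith [abs_nonneg (X n z).re]

/-- The coding of a point by the signs of the real parts along its orbit. -/
def code (z : ℂ × ℂ) : ℤ → Bool := fun n => decide (0 < (X n z).re)

theorem code_hf (z : ℂ × ℂ) : code (hf z) = shift 1 (code z) := by
  funext n
  simp only [code, shift, X_hf]

theorem code_iterate (j : ℕ) (z : ℂ × ℂ) : code (hf^[j] z) = shift j (code z) := by
  induction j generalizing z with
  | zero => funext n; simp [shift]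
  | succ j ih =>
    rw [Function.iterate_succ_apply, ih, code_hf, shift_shift]
    push_cast
    rfl

theorem same_sign {z z' : ℂ × ℂ} (hz : z ∈ hK) (hz' : z' ∈ hK) {n : ℤ}
    (h : code z n = code z' n) : 3 / 2 ≤ ‖X n z + X n z'‖ := by
  have h1 := abs_re hz n
  have h2 := abs_re hz' n
  refine le_trans ?_ (Complex.abs_re_le_norm _)
  rw [Complex.add_re]
  simp only [code] at h
  have h3 : (0 < (X n z).re) ↔ (0 < (X n z').re) := decide_eq_decide.1 h
  by_cases hp : 0 < (X n z).re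
  · have hp' := h3.1 hp
    rw [abs_of_pos hp] at h1
    rw [abs_of_pos hp'] at h2
    rw [abs_of_pos (by linarith)]
    linarith
  · have hp' : ¬ 0 < (X n z').re := fun hh => hp (h3.2 hh)
    rw [abs_of_nonpos (not_lt.1 hp)] at h1
    rw [abs_of_nonpos (not_lt.1 hp')] at h2
    rw [abs_of_nonpos (by linarith)]
    linarith

theorem step_bound {z z' : ℂ × ℂ} (hz : z ∈ hK) (hz' : z' ∈ hK) {n : ℤ} {δ : ℝ}
    (h : code z n = code z' n) (h1 : ‖X (n + 1) z - X (n + 1) z'‖ ≤ δ)
    (h2 : ‖X (n - 1) z - X (n - 1) z'‖ ≤ δ) : ‖X n z - X n z'‖ ≤ δ / 4 := by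
  have e : (X n z - X n z') * (X n z + X n z') =
      ((X (n + 1) z - X (n + 1) z') + (X (n - 1) z - X (n - 1) z')) / 10 := by
    have a1 := X_sq n z
    have a2 := X_sq n z'
    linear_combination a1 - a2
  have h3 := same_sign hz hz' h
  have h4 : ‖X n z - X n z'‖ * ‖X n z + X n z'‖ ≤ (δ + δ) / 10 := by
    rw [← norm_mul, e, norm_div]
    have : ‖(10 : ℂ)‖ = 10 := by simp
    rw [this]
    exact div_le_div_of_nonneg_right ((norm_add_le _ _).trans (add_le_add h1 h2)) (by norm_num)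
  have h5 : 0 ≤ ‖X n z - X n z'‖ := norm_nonneg _
  nlinarith

theorem contraction {z z' : ℂ × ℂ} (hz : z ∈ hK) (hz' : z' ∈ hK) {m : ℕ}
    (h : ∀ n : ℤ, |n| ≤ m → code z n = code z' n) :
    ∀ (j : ℕ) (n : ℤ), |n| + j ≤ m + 1 → ‖X n z - X n z'‖ ≤ 4 * (1 / 4) ^ j := by
  intro j
  induction j with
  | zero =>
    intro n _
    refine (norm_sub_le _ _).trans ?_
    have := hz n
    have := hz' n
    simp only [pow_zero]
    linarith
  | succ j ih =>
    intro n hn
    push_cast at hn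
    have h1 := ih (n + 1) (by have := abs_add_le n 1; simp only [abs_one] at this; linarith)
    have h2 := ih (n - 1) (by have := abs_sub n 1; simp only [abs_one] at this; linarith)
    have h3 := step_bound hz hz' (h n (by
      have : (0 : ℤ) ≤ j := by positivity
      linarith)) h1 h2
    rw [pow_succ]
    linarith

theorem dist_le_of_code {z z' : ℂ × ℂ} (hz : z ∈ hK) (hz' : z' ∈ hK) {m : ℕ}
    (h : ∀ n : ℤ, |n| ≤ m → code z n = code z' n) : dist z z' ≤ 4 * (1 / 4) ^ m := by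
  rw [Prod.dist_eq, dist_eq_norm, dist_eq_norm]
  refine max_le ?_ ?_
  · have := contraction hz hz' h m 0 (by simp)
    rw [X_zero, X_zero] at this
    exact this
  · have := contraction hz hz' h m (-1) (by simp [add_comm])
    rw [X_neg_one, X_neg_one] at this
    exact this

theorem tendsto_geo : Tendsto (fun m : ℕ => (4 : ℝ) * (1 / 4) ^ m) atTop (𝓝 0) := by
  have := (tendsto_pow_atTop_nhds_zero_of_lt_one (r := (1 / 4 : ℝ)) (by norm_num)
    (by norm_num)).const_mul (4 : ℝ)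
  simpa using this

theorem code_injOn {z z' : ℂ × ℂ} (hz : z ∈ hK) (hz' : z' ∈ hK) (h : code z = code z') :
    z = z' := by
  have h1 : ∀ m : ℕ, dist z z' ≤ 4 * (1 / 4) ^ m := fun m =>
    dist_le_of_code hz hz' fun n _ => by rw [h]
  have h2 : dist z z' ≤ 0 := ge_of_tendsto tendsto_geo (Eventually.of_forall h1)
  exact dist_le_zero.1 h2

end Pool.Agent.H82.Hen
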