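import Pool.Agent.H82.Hen.Horse

/-!
# Every sign sequence is realised; invariant measures live on the horseshoe
-/

open MeasureTheory Set Filter Topology BoundedContinuousFunction
open scoped NNReal ENNReal

noncomputable section

namespace Pool.Agent.H82.Hen

/-- sign of a bit -/
def sgb (b : Bool) : ℝ := if b then 1 else -1

theorem abs_sgb (b : Bool) : |sgb b| = 1 := by
  unfold sgb; split_ifs <;> simp

/-- clipping to `[-2, 2]`. -/
def clip (t : ℝ) : ℝ := max (-2) (min 2 t)

theorem clip_bounds (t : ℝ) : -2 ≤ clip t ∧ clip t ≤ 2 :=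
  ⟨le_max_left _ _, max_le (by norm_num) (min_le_left _ _)⟩

theorem clip_of_abs_le {t : ℝ} (h : |t| ≤ 2) : clip t = t := by
  have := abs_le.1 h
  unfold clip
  rw [min_eq_right this.2, max_eq_right this.1]

theorem clip_lip (s t : ℝ) : |clip s - clip t| ≤ |s - t| := by
  have key : ∀ s t : ℝ, s ≤ t → clip t - clip s ≤ t - s ∧ 0 ≤ clip t - clip s := by
    intro s t h
    unfold clip
    simp only [max_def, min_def]
    split_ifs <;> constructor <;> linarith
  rcases le_total s t with h | h
  · obtain ⟨h1, h2⟩ := key s t h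
    rw [abs_sub_comm, abs_of_nonneg h2, abs_sub_comm, abs_of_nonneg (by linarith)]
    exact h1
  · obtain ⟨h1, h2⟩ := key t s h
    rw [abs_of_nonneg h2, abs_of_nonneg (by linarith)]
    exact h1

/-- The argument of the square root. -/
def sarg (x : ℤ → ℝ) (n : ℤ) : ℝ := 1 + (clip (x (n + 1)) + clip (x (n - 1))) / 10

theorem sarg_bounds (x : ℤ → ℝ) (n : ℤ) : 3 / 5 ≤ sarg x n ∧ sarg x n ≤ 7 / 5 := by
  unfold sarg
  have h1 := clip_bounds (x (n + 1))
  have h2 := clip_bounds (x (n - 1))
  constructor <;> linarith [h1.1, h1.2, h2.1, h2.2]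

theorem sqrt_sarg_bounds (x : ℤ → ℝ) (n : ℤ) :
    3 / 4 ≤ Real.sqrt (sarg x n) ∧ Real.sqrt (sarg x n) ≤ 2 := by
  have h := sarg_bounds x n
  constructor
  · apply Real.le_sqrt_of_sq_le
    linarith [h.1]
  · rw [Real.sqrt_le_left (by norm_num)]
    linarith [h.2]

/-- The operator whose fixed point is the orbit. -/
def opR (s : ℤ → Bool) (x : ℤ → ℝ) (n : ℤ) : ℝ := sgb (s n) * Real.sqrt (sarg x n)

theorem opR_bound (s : ℤ → Bool) (x : ℤ → ℝ) (n : ℤ) : ‖opR s x n‖ ≤ 2 := by
  unfold opR
  rw [norm_mul, Real.norm_eq_abs, abs_sgb, one_mul, Real.norm_of_nonneg (Real.sqrt_nonneg _)]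
  exact (sqrt_sarg_bounds x n).2

theorem opR_lip (s : ℤ → Bool) (x y : ℤ → ℝ) (δ : ℝ) (h : ∀ n, |x n - y n| ≤ δ) (n : ℤ) :
    |opR s x n - opR s y n| ≤ δ / 2 := by
  unfold opR
  rw [← mul_sub, abs_mul, abs_sgb, one_mul]
  set a := Real.sqrt (sarg x n)
  set b := Real.sqrt (sarg y n)
  have ha := (sqrt_sarg_bounds x n).1
  have hb := (sqrt_sarg_bounds y n).1
  have ha2 : a ^ 2 = sarg x n := Real.sq_sqrt (by linarith [(sarg_bounds x n).1])
  have hb2 : b ^ 2 = sarg y n := Real.sq_sqrt (by linarith [(sarg_bounds y n).1])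
  have h1 : |a - b| * (a + b) ≤ (δ + δ) / 10 := by
    have h2 : |a - b| * (a + b) = |sarg x n - sarg y n| := by
      rw [← ha2, ← hb2]
      have : a ^ 2 - b ^ 2 = (a - b) * (a + b) := by ring
      rw [this, abs_mul, abs_of_pos (show 0 < a + b by linarith)]
    rw [h2]
    unfold sarg
    have h3 : 1 + (clip (x (n + 1)) + clip (x (n - 1))) / 10 -
        (1 + (clip (y (n + 1)) + clip (y (n - 1))) / 10) =
        ((clip (x (n + 1)) - clip (y (n + 1))) + (clip (x (n - 1)) - clip (y (n - 1)))) / 10 := by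
      ring
    rw [h3, abs_div, abs_of_pos (show (0:ℝ) < 10 by norm_num)]
    refine div_le_div_of_nonneg_right ((abs_add_le _ _).trans (add_le_add ?_ ?_)) (by norm_num)
    · exact (clip_lip _ _).trans (h _)
    · exact (clip_lip _ _).trans (h _)
  have h4 := abs_nonneg (a - b)
  nlinarith

/-- The operator on bounded functions. -/
def opB (s : ℤ → Bool) (x : ℤ →ᵇ ℝ) : ℤ →ᵇ ℝ :=
  BoundedContinuousFunction.ofNormedAddCommGroupDiscrete (opR s x) 2 (opR_bound s x)

theorem opB_contracting (s : ℤ → Bool) : ContractingWith (1 / 2) (opB s) := by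
  refine ⟨by norm_num, LipschitzWith.of_dist_le_mul fun x y => ?_⟩
  rw [BoundedContinuousFunction.dist_le (by positivity)]
  intro n
  have := opR_lip s x y (dist x y) (fun n => by
    have := BoundedContinuousFunction.dist_coe_le_dist (f := x) (g := y) n
    rwa [Real.dist_eq] at this) n
  rw [Real.dist_eq]
  refine this.trans (le_of_eq ?_)
  push_cast
  ring

theorem exists_orbit (s : ℤ → Bool) : ∃ x : ℤ → ℝ, (∀ n, |x n| ≤ 2) ∧
    (∀ n, x (n + 1) = 10 * x n ^ 2 - 10 - x (n - 1)) ∧ ∀ n, (0 < x n ↔ s n = true) := by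
  set x := ContractingWith.fixedPoint (opB s) (opB_contracting s) with hx
  have hfix : opB s x = x := (opB_contracting s).fixedPoint_isFixedPt
  have hn : ∀ n, x n = opR s x n := by
    intro n
    conv_lhs => rw [← hfix]
    rfl
  have hb : ∀ n, |x n| ≤ 2 := by
    intro n
    rw [hn]
    exact opR_bound s x n
  refine ⟨x, hb, ?_, ?_⟩
  · intro n
    have h1 : x n ^ 2 = sarg x n := by
      rw [hn n]
      unfold opR
      rw [mul_pow, Real.sq_sqrt (by linarith [(sarg_bounds x n).1]), ← sq_abs, abs_sgb]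
      ring
    unfold sarg at h1
    rw [clip_of_abs_le (hb _), clip_of_abs_le (hb _)] at h1
    linarith
  · intro n
    rw [hn n]
    unfold opR
    have hp : 0 < Real.sqrt (sarg x n) := by linarith [(sqrt_sarg_bounds x n).1]
    cases hs : s n
    · simp only [sgb, Bool.false_eq_true, if_false, iff_false, not_lt]
      linarith
    · simp only [sgb, if_true, iff_true]
      linarith

theorem exists_point (s : ℤ → Bool) : ∃ z ∈ hK, code z = s := by
  obtain ⟨x, hx1, hx2, hx3⟩ := exists_orbit s
  set w : ℤ → ℂ × ℂ := fun n => ((x n : ℂ), (x (n - 1) : ℂ)) with hw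
  have hstep : ∀ n, hf (w n) = w (n + 1) := by
    intro n
    simp only [hf, hw]
    ext
    · simp only
      rw [hx2 n]
      push_cast
      ring
    · simp only
      congr 2
      ring
  have hback : ∀ n, hg (w n) = w (n - 1) := by
    intro n
    have := hstep (n - 1)
    rw [sub_add_cancel] at this
    rw [← this, hg_hf]
  have hall : ∀ n : ℤ, (hE ^ n) (w 0) = w n := by
    intro n
    induction n using Int.induction_on with
    | zero => simp
    | succ n ih => rw [hE_zpow_succ, ih, hstep]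
    | pred n ih => rw [hE_zpow_pred, ih, hback]
  have hX : ∀ n : ℤ, X n (w 0) = (x n : ℂ) := by
    intro n
    unfold X
    rw [hall]
  refine ⟨w 0, ?_, ?_⟩
  · intro n
    rw [hX, Complex.norm_real]
    exact hx1 n
  · funext n
    unfold code
    rw [hX, Complex.ofReal_re]
    have := hx3 n
    cases hs : s n
    · rw [hs] at this
      simp only [Bool.false_eq_true, iff_false] at this
      simp [this]
    · rw [hs] at this
      simp only [iff_true] at this
      simp [this]

/-- The point with a given code. -/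
def pt (s : ℤ → Bool) : ℂ × ℂ := (exists_point s).choose

theorem pt_mem (s : ℤ → Bool) : pt s ∈ hK := (exists_point s).choose_spec.1

theorem code_pt (s : ℤ → Bool) : code (pt s) = s := (exists_point s).choose_spec.2

theorem pt_code {z : ℂ × ℂ} (hz : z ∈ hK) : pt (code z) = z :=
  code_injOn (pt_mem _) hz (code_pt _)

theorem hf_mem {z : ℂ × ℂ} (hz : z ∈ hK) : hf z ∈ hK := by
  intro n
  rw [X_hf]
  exact hz _

theorem hf_pt (s : ℤ → Bool) : hf (pt s) = pt (shift 1 s) := by
  refine code_injOn (hf_mem (pt_mem s)) (pt_mem _) ?_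
  rw [code_hf, code_pt, code_pt]

theorem continuous_pt : Continuous pt := by
  rw [continuous_iff_continuousAt]
  intro s
  rw [ContinuousAt, Metric.tendsto_nhds]
  intro ε hε
  obtain ⟨m, hm⟩ := (tendsto_geo.eventually (gt_mem_nhds hε)).exists
  have hopen : ∀ᶠ s' in 𝓝 s, ∀ n ∈ Finset.Icc (-(m : ℤ)) m, s' n = s n := by
    rw [Filter.eventually_all_finset]
    intro n _
    have hc : ContinuousAt (fun s' : ℤ → Bool => s' n) s := (continuous_apply n).continuousAt
    exact hc.eventually (IsOpen.mem_nhds (isOpen_discrete {s n}) rfl)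
  filter_upwards [hopen] with s' hs'
  refine lt_of_le_of_lt (dist_le_of_code (pt_mem _) (pt_mem _) (m := m) fun n hn => ?_) hm
  rw [code_pt, code_pt]
  exact hs' n (Finset.mem_Icc.2 (abs_le.1 hn))

end Pool.Agent.H82.Hen
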