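import Pool.Agent.H82.Hen.Horse2
import Pool.Agent.H82.Hen.Entropy3

/-!
# Invariant probability measures are carried by the set of bounded orbits
-/

open MeasureTheory Set Filter Topology
open scoped NNReal ENNReal

noncomputable section

namespace Pool.Agent.H82.Hen

/-- a growth argument. -/
theorem null_of_growth (ν : Measure (ℂ × ℂ)) [IsProbabilityMeasure ν] (A : ℝ → Set (ℂ × ℂ))
    (hA : ∀ t, 2 ≤ t → ν (A t) ≤ ν (A (2 * t))) (hmono : ∀ t s, t ≤ s → A s ⊆ A t)
    (hmeas : ∀ t, MeasurableSet (A t)) (hempty : ⋂ n : ℕ, A n = ∅) : ν (A 2) = 0 := by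
  have h1 : ∀ k : ℕ, ν (A 2) ≤ ν (A (2 * 2 ^ k)) := by
    intro k
    induction k with
    | zero => simp
    | succ k ih =>
      refine ih.trans ?_
      have h2 : (2 : ℝ) ≤ 2 * 2 ^ k := by
        have : (1 : ℝ) ≤ 2 ^ k := one_le_pow₀ (by norm_num)
        linarith
      have := hA _ h2
      have e : (2 : ℝ) * (2 * 2 ^ k) = 2 * 2 ^ (k + 1) := by ring
      rwa [e] at this
  have hanti : Antitone (fun n : ℕ => A n) := fun a b hab => hmono _ _ (by exact_mod_cast hab)
  have hlim := tendsto_measure_iInter_atTop (μ := ν) (s := fun n : ℕ => A n)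
    (fun n => (hmeas n).nullMeasurableSet) hanti ⟨0, measure_ne_top _ _⟩
  rw [hempty, measure_empty] at hlim
  have hle : ∀ n : ℕ, ν (A 2) ≤ ν (A n) := by
    intro n
    refine (h1 n).trans (measure_mono (hmono _ _ ?_))
    have : (n : ℝ) < 2 ^ n := by exact_mod_cast Nat.lt_two_pow_self
    have : (0:ℝ) < 2 ^ n := by positivity
    linarith
  exact le_antisymm (ge_of_tendsto hlim (Eventually.of_forall hle)) (zero_le)

theorem growth_aux {x y : ℂ} {t : ℝ} (ht : 2 ≤ t) (hx : t < ‖x‖) (hy : ‖y‖ ≤ ‖x‖) :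
    2 * t < ‖10 * x ^ 2 - 10 - y‖ ∧ ‖x‖ ≤ ‖10 * x ^ 2 - 10 - y‖ := by
  have h1 : ‖10 * x ^ 2‖ - ‖(10 : ℂ) + y‖ ≤ ‖10 * x ^ 2 - 10 - y‖ := by
    have : 10 * x ^ 2 - 10 - y = 10 * x ^ 2 - (10 + y) := by ring
    rw [this]
    exact norm_sub_norm_le _ _
  have h2 : ‖10 * x ^ 2‖ = 10 * ‖x‖ ^ 2 := by
    rw [norm_mul, norm_pow]; simp
  have h3 : ‖(10 : ℂ) + y‖ ≤ 10 + ‖y‖ := by
    refine (norm_add_le _ _).trans ?_
    simp
  rw [h2] at h1
  constructor <;> nlinarith

theorem hg_mp {ν : Measure (ℂ × ℂ)} (h : MeasurePreserving hf ν ν) : MeasurePreserving hg ν ν := by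
  have hm : Measurable hg := continuous_hg.measurable
  refine ⟨hm, ?_⟩
  ext S hS
  rw [Measure.map_apply hm hS, ← h.measure_preimage (hm hS).nullMeasurableSet, ← preimage_comp]
  have : hg ∘ hf = id := by funext z; exact hg_hf z
  rw [this, preimage_id]

theorem zpow_mp {ν : Measure (ℂ × ℂ)} (h : MeasurePreserving hf ν ν) :
    ∀ n : ℤ, MeasurePreserving (fun z => (hE ^ n) z) ν ν := by
  intro n
  induction n using Int.induction_on with
  | zero =>
    have : (fun z : ℂ × ℂ => (hE ^ (0 : ℤ)) z) = id := by funext z; simp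
    rw [this]; exact MeasurePreserving.id ν
  | succ n ih =>
    have : (fun z => (hE ^ ((n : ℤ) + 1)) z) = hf ∘ fun z => ((hE ^ (n : ℤ)) z) := by
      funext z; exact hE_zpow_succ _ _
    rw [this]; exact h.comp ih
  | pred n ih =>
    have : (fun z => (hE ^ (-(n : ℤ) - 1)) z) = hg ∘ fun z => ((hE ^ (-(n : ℤ))) z) := by
      funext z; exact hE_zpow_pred _ _
    rw [this]; exact (hg_mp h).comp ih

theorem ae_mem_hK {ν : Measure (ℂ × ℂ)} [IsProbabilityMeasure ν]
    (h : MeasurePreserving hf ν ν) : ∀ᵐ z ∂ν, z ∈ hK := by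
  -- forward escaping region
  set A : ℝ → Set (ℂ × ℂ) := fun t => {z | t < ‖z.1‖ ∧ ‖z.2‖ ≤ ‖z.1‖} with hA
  have hAm : ∀ t, MeasurableSet (A t) := fun t =>
    (measurableSet_lt measurable_const measurable_fst.norm).inter
      (measurableSet_le measurable_snd.norm measurable_fst.norm)
  have hA2 : ν (A 2) = 0 := by
    refine null_of_growth ν A ?_ ?_ hAm ?_
    · intro t ht
      rw [← h.measure_preimage (hAm (2 * t)).nullMeasurableSet]
      refine measure_mono ?_
      rintro ⟨x, y⟩ ⟨h1, h2⟩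
      exact growth_aux ht h1 h2
    · rintro t s hts ⟨x, y⟩ ⟨h1, h2⟩
      exact ⟨hts.trans_lt h1, h2⟩
    · ext z
      simp only [mem_iInter, mem_empty_iff_false, iff_false, not_forall]
      obtain ⟨n, hn⟩ := exists_nat_gt ‖z.1‖
      exact ⟨n, fun hz => absurd hz.1 (not_lt.2 hn.le)⟩
  -- backward escaping region
  set B : ℝ → Set (ℂ × ℂ) := fun t => {z | t < ‖z.2‖ ∧ ‖z.1‖ ≤ ‖z.2‖} with hB
  have hBm : ∀ t, MeasurableSet (B t) := fun t =>
    (measurableSet_lt measurable_const measurable_snd.norm).inter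
      (measurableSet_le measurable_fst.norm measurable_snd.norm)
  have hB2 : ν (B 2) = 0 := by
    refine null_of_growth ν B ?_ ?_ hBm ?_
    · intro t ht
      rw [← (hg_mp h).measure_preimage (hBm (2 * t)).nullMeasurableSet]
      refine measure_mono ?_
      rintro ⟨x, y⟩ ⟨h1, h2⟩
      exact growth_aux ht h1 h2
    · rintro t s hts ⟨x, y⟩ ⟨h1, h2⟩
      exact ⟨hts.trans_lt h1, h2⟩
    · ext z
      simp only [mem_iInter, mem_empty_iff_false, iff_false, not_forall]
      obtain ⟨n, hn⟩ := exists_nat_gt ‖z.2‖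
      exact ⟨n, fun hz => absurd hz.1 (not_lt.2 hn.le)⟩
  have hN : ν {z : ℂ × ℂ | 2 < ‖z.1‖} = 0 := by
    refine measure_mono_null ?_ (measure_union_null hA2 hB2)
    rintro ⟨x, y⟩ hx
    rcases le_total ‖y‖ ‖x‖ with h1 | h1
    · exact Or.inl ⟨hx, h1⟩
    · exact Or.inr ⟨lt_of_lt_of_le hx h1, h1⟩
  have hNm : MeasurableSet {z : ℂ × ℂ | 2 < ‖z.1‖} :=
    measurableSet_lt measurable_const measurable_fst.norm
  have hall : ∀ n : ℤ, ∀ᵐ z ∂ν, ‖X n z‖ ≤ 2 := by
    intro n
    have h1 := (zpow_mp h n).measure_preimage hNm.nullMeasurableSet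
    rw [hN] at h1
    rw [ae_iff]
    refine measure_mono_null ?_ h1
    intro z hz
    exact not_le.1 hz
  exact ae_all_iff.2 hall

theorem measurable_code : Measurable code := by
  refine measurable_pi_iff.2 fun n => ?_
  have h : Measurable fun z : ℂ × ℂ => (X n z).re :=
    (Complex.continuous_re.comp (continuous_X n)).measurable
  have hs : MeasurableSet {z : ℂ × ℂ | 0 < (X n z).re} := measurableSet_lt measurable_const h
  exact measurable_to_bool (by
    have : (fun z => code z n) ⁻¹' {true} = {z : ℂ × ℂ | 0 < (X n z).re} := by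
      ext z; simp [code]
    rw [this]; exact hs)

theorem measurable_pt : Measurable pt := continuous_pt.measurable

/-- Approximation of a finite partition by finite names. -/
theorem approx_partition {ν : Measure (ℂ × ℂ)} [IsProbabilityMeasure ν]
    (h : MeasurePreserving hf ν ν) {k : ℕ} (ξ : ℂ × ℂ → Fin k) (hξ : Measurable ξ)
    (δ : ℝ) (hδ : 0 < δ) : ∃ (m M : ℕ) (F : (Fin M → Bool) → Fin k),
      ν.real {z | ξ (hf^[m] z) ≠ F (nameOf hf (fun z => code z 0) M z)} ≤ δ := by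
  classical
  set ε' : ℝ≥0∞ := ENNReal.ofReal (δ / (k + 1)) with hε'
  have hε'0 : ε' ≠ 0 := by
    rw [hε']; exact (ENNReal.ofReal_pos.2 (by positivity)).ne'
  have hAm : ∀ i, MeasurableSet (ξ ⁻¹' {i} ∩ hK) := fun i =>
    (hξ (measurableSet_singleton i)).inter isClosed_hK.measurableSet
  choose C hCsub hCcomp hCmeas using fun i =>
    (hAm i).exists_isCompact_sdiff_lt (measure_ne_top ν _) hε'0
  have hdisj : ∀ i j, i ≠ j → Disjoint (C i) (C j) := by
    intro i j hij
    refine Set.disjoint_left.2 fun z hz hz' => hij ?_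
    have h1 : ξ z = i := (hCsub i hz).1
    have h2 : ξ z = j := (hCsub j hz').1
    rw [← h1, h2]
  have hsep : ∀ i j, i ≠ j → ∃ r : ℝ, 0 < r ∧ ∀ z ∈ C i, ∀ z' ∈ C j, r < dist z z' := by
    intro i j hij
    obtain ⟨r, hr0, hr⟩ := Metric.exists_pos_forall_lt_edist (hCcomp i) (hCcomp j).isClosed
      (hdisj i j hij)
    refine ⟨r, hr0, fun z hz z' hz' => ?_⟩
    have := hr z hz z' hz'
    rw [edist_dist, ← ENNReal.ofReal_coe_nnreal] at this
    exact (ENNReal.ofReal_lt_ofReal_iff'.1 this).1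
  have hm : ∃ m : ℕ, ∀ i j, i ≠ j → ∀ z ∈ C i, ∀ z' ∈ C j, 4 * (1 / 4) ^ m < dist z z' := by
    have : ∀ᶠ m : ℕ in atTop, ∀ i j, i ≠ j → ∀ z ∈ C i, ∀ z' ∈ C j,
        4 * (1 / 4) ^ m < dist z z' := by
      rw [eventually_all]; intro i
      rw [eventually_all]; intro j
      by_cases hij : i = j
      · exact Eventually.of_forall fun m hne => absurd hij hne
      · obtain ⟨r, hr0, hr⟩ := hsep i j hij
        filter_upwards [tendsto_geo.eventually (gt_mem_nhds hr0)] with m hm _ z hz z' hz'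
        exact hm.trans (hr z hz z' hz')
    exact this.exists
  obtain ⟨m, hm⟩ := hm
  set nm := nameOf hf (fun z => code z 0) (2 * m + 1) with hnm
  set F : (Fin (2 * m + 1) → Bool) → Fin k := fun u =>
    if h : ∃ i, ∃ w, hf^[m] w ∈ C i ∧ nm w = u then h.choose else ξ 0 with hF
  refine ⟨m, 2 * m + 1, F, ?_⟩
  have hFspec : ∀ w i, hf^[m] w ∈ C i → F (nm w) = i := by
    intro w i hw
    have hex : ∃ i, ∃ w', hf^[m] w' ∈ C i ∧ nm w' = nm w := ⟨i, w, hw, rfl⟩
    have hFeq : F (nm w) = hex.choose := by simp only [hF]; rw [dif_pos hex]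
    rw [hFeq]
    obtain ⟨w', hw', hnw⟩ := hex.choose_spec
    by_contra hne
    have h1 := hm _ _ hne _ hw' _ hw
    refine absurd (dist_le_of_code (hCsub _ hw').2 (hCsub _ hw).2 (m := m) ?_) (not_le.2 h1)
    intro n hn
    rw [code_iterate, code_iterate]
    have hn' := abs_le.1 hn
    have h0 : 0 ≤ n + m := by linarith [hn'.1]
    obtain ⟨j, hj⟩ := Int.eq_ofNat_of_zero_le h0
    have hjlt : j < 2 * m + 1 := by
      have := hn'.2
      omega
    have h2 := congrFun hnw ⟨j, hjlt⟩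
    simp only [hnm, nameOf, code_iterate, shift, zero_add] at h2
    simp only [shift]
    rw [hj]
    exact h2
  -- the exceptional set
  have hsub : {z | ξ (hf^[m] z) ≠ F (nm z)} ⊆ hf^[m] ⁻¹' (⋃ i, C i)ᶜ := by
    intro w hw hmem
    obtain ⟨i, hi⟩ := mem_iUnion.1 hmem
    exact hw (by rw [hFspec w i hi]; exact (hCsub i hi).1)
  have hUm : MeasurableSet (⋃ i, C i)ᶜ :=
    (MeasurableSet.iUnion fun i => (hCcomp i).isClosed.measurableSet).compl
  have hle : ν (hf^[m] ⁻¹' (⋃ i, C i)ᶜ) ≤ k * ε' := by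
    rw [(h.iterate m).measure_preimage hUm.nullMeasurableSet]
    have h1 : (⋃ i, C i)ᶜ ⊆ hKᶜ ∪ ⋃ i, (ξ ⁻¹' {i} ∩ hK) \ C i := by
      intro z hz
      by_cases hzK : z ∈ hK
      · refine Or.inr (mem_iUnion.2 ⟨ξ z, ⟨rfl, hzK⟩, fun hc => hz (mem_iUnion.2 ⟨_, hc⟩)⟩)
      · exact Or.inl hzK
    refine (measure_mono h1).trans ((measure_union_le _ _).trans ?_)
    have h2 : ν hKᶜ = 0 := ae_mem_hK h
    rw [h2, zero_add]
    refine (measure_iUnion_fintype_le _ _).trans ?_
    refine (Finset.sum_le_sum fun i _ => (hCmeas i).le).trans ?_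
    simp
  have hfin : ν {z | ξ (hf^[m] z) ≠ F (nm z)} ≤ ENNReal.ofReal δ := by
    refine (measure_mono hsub).trans (hle.trans ?_)
    rw [hε', ← ENNReal.ofReal_natCast, ← ENNReal.ofReal_mul (by positivity)]
    apply ENNReal.ofReal_le_ofReal
    have : (k : ℝ) * (δ / (k + 1)) = δ * (k / (k + 1)) := by field_simp
    rw [this]
    have h2 : (k : ℝ) / (k + 1) ≤ 1 := by
      rw [div_le_one (by positivity)]; linarith
    nlinarith
  rw [measureReal_def]
  exact ENNReal.toReal_le_of_le_ofReal hδ.le hfin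

end Pool.Agent.H82.Hen
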