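import Pool.Agent.H82.Hen.Haar

/-!
# The centred letter function is not a coboundary
-/

open MeasureTheory Set Filter Topology
open scoped NNReal ENNReal

noncomputable section

namespace Pool.Agent.H82.Hen

/-- `exp(-2πi/3)`. -/
def om : ℂ := Complex.exp (2 * Real.pi * Complex.I * (-1 / 3))

theorem om_cube : om ^ 3 = 1 := by
  unfold om
  rw [← Complex.exp_nat_mul]
  have : ((3 : ℕ) : ℂ) * (2 * Real.pi * Complex.I * (-1 / 3)) = -(2 * Real.pi * Complex.I) := by
    push_cast; ring
  rw [this, Complex.exp_neg, Complex.exp_two_pi_mul_I, inv_one]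

theorem om_ne_one : om ≠ 1 := by
  unfold om
  intro h
  rw [Complex.exp_eq_one_iff] at h
  obtain ⟨n, hn⟩ := h
  have hpi : (2 * Real.pi * Complex.I : ℂ) ≠ 0 := by
    simp [Real.pi_ne_zero]
  have h2 : (2 * Real.pi * Complex.I : ℂ) * (-1 / 3) = (2 * Real.pi * Complex.I) * n := by
    rw [hn]; ring
  have h3 := mul_left_cancel₀ hpi h2
  have h4 : (-1 : ℂ) = 3 * n := by
    rw [← h3]; ring
  have h5 : (-1 : ℤ) = 3 * n := by exact_mod_cast h4
  omega

theorem om_sq_ne_one : om ^ 2 ≠ 1 := by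
  intro h
  apply om_ne_one
  have h2 := om_cube
  rw [pow_succ, h, one_mul] at h2
  exact h2

theorem om_pow (k : ℕ) : om ^ (2 ^ k) = om ∨ om ^ (2 ^ k) = om ^ 2 := by
  induction k with
  | zero => left; simp
  | succ k ih =>
    rw [pow_succ 2 k, pow_mul]
    rcases ih with h | h
    · right; rw [h]
    · left
      rw [h, ← pow_mul]
      have : om ^ (2 * 2) = om ^ 3 * om := by ring
      rw [this, om_cube, one_mul]

theorem om_lower : ∃ δ > 0, ∀ k : ℕ, δ ≤ ‖om ^ (2 ^ k) - 1‖ := by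
  refine ⟨min ‖om - 1‖ ‖om ^ 2 - 1‖, lt_min ?_ ?_, fun k => ?_⟩
  · exact norm_pos_iff.2 (sub_ne_zero.2 om_ne_one)
  · exact norm_pos_iff.2 (sub_ne_zero.2 om_sq_ne_one)
  · rcases om_pow k with h | h
    · rw [h]; exact min_le_left _ _
    · rw [h]; exact min_le_right _ _

/-- translation as a continuous map. -/
def trans (a : Z2) : C(Z2, Z2) := ⟨fun z => z + a, by fun_prop⟩

theorem trans_tendsto : Tendsto (fun k : ℕ => trans (-(2 : Z2) ^ k)) atTop (𝓝 (trans 0)) := by
  rw [ContinuousMap.tendsto_iff_tendstoUniformly, Metric.tendstoUniformly_iff]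
  intro ε hε
  have h1 : Tendsto (fun k : ℕ => (1 / 2 : ℝ) ^ k) atTop (𝓝 0) :=
    tendsto_pow_atTop_nhds_zero_of_lt_one (by norm_num) (by norm_num)
  filter_upwards [h1.eventually (gt_mem_nhds hε)] with k hk x
  have h2 : dist (trans 0 x) (trans (-(2 : Z2) ^ k) x) = (1 / 2 : ℝ) ^ k := by
    rw [dist_eq_norm]
    have : trans 0 x - trans (-(2 : Z2) ^ k) x = (2 : Z2) ^ k := by
      simp [trans]
    rw [this, norm_pow]
    have h3 : ‖(2 : Z2)‖ = 1 / 2 := by
      have := PadicInt.norm_p (p := 2)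
      push_cast at this
      rw [this]; norm_num
    rw [h3]
  rw [h2]; exact hk

theorem not_coboundary_Z2 (U : Z2 → ℝ) (hU : AEStronglyMeasurable U haarZ2)
    (h : ∀ᵐ z ∂haarZ2, (if seq z 0 = true then (1:ℝ) else 0) - 1 / 3 = U (z + (-1)) - U z) :
    False := by
  set F : Z2 → ℂ := fun z => Complex.exp (2 * Real.pi * Complex.I * (U z : ℂ)) with hF
  have hFm : AEStronglyMeasurable F haarZ2 := by
    have h1 : Continuous (fun t : ℝ => Complex.exp (2 * Real.pi * Complex.I * (t : ℂ))) := by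
      fun_prop
    exact h1.comp_aestronglyMeasurable hU
  have hFn : ∀ z, ‖F z‖ = 1 := by
    intro z
    simp only [hF]
    have : 2 * Real.pi * Complex.I * (U z : ℂ) = ((2 * Real.pi * U z : ℝ) : ℂ) * Complex.I := by
      push_cast; ring
    rw [this]
    exact Complex.norm_exp_ofReal_mul_I _
  have hFmem : MemLp F 1 haarZ2 :=
    MemLp.of_bound hFm 1 (Eventually.of_forall fun z => (hFn z).le)
  -- one step
  have hstep : ∀ᵐ z ∂haarZ2, F (z + (-1)) = om * F z := by
    filter_upwards [h] with z hz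
    simp only [hF, om]
    rw [← Complex.exp_add]
    have hU' : U (z + -1) = U z + ((if seq z 0 = true then (1:ℝ) else 0) - 1 / 3) := by linarith
    rw [hU']
    split_ifs with hc
    · have : 2 * Real.pi * Complex.I * ((U z + (1 - 1 / 3) : ℝ) : ℂ) =
          2 * Real.pi * Complex.I * (-1 / 3) + 2 * Real.pi * Complex.I * (U z : ℂ) +
          2 * Real.pi * Complex.I := by
        push_cast; ring
      rw [this, Complex.exp_add _ (2 * Real.pi * Complex.I), Complex.exp_two_pi_mul_I, mul_one]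
    · congr 1
      push_cast; ring
  have hiter : ∀ n : ℕ, ∀ᵐ z ∂haarZ2, F (z + (-(n : Z2))) = om ^ n * F z := by
    intro n
    induction n with
    | zero => exact Eventually.of_forall fun z => by simp
    | succ n ih =>
      have h2 := (mp_add (-(1 : Z2))).quasiMeasurePreserving.ae ih
      filter_upwards [hstep, h2] with z hz1 hz2
      have e : z + (-((n + 1 : ℕ) : Z2)) = z + -1 + (-(n : Z2)) := by push_cast; ring
      rw [e, hz2, hz1, pow_succ]; ring
  -- the `L¹` class
  set f : Lp ℂ 1 haarZ2 := hFmem.toLp F with hf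
  have hfne : 0 < ‖f‖ := by
    rw [norm_pos_iff]
    intro h0
    have h1 : f =ᵐ[haarZ2] F := hFmem.coeFn_toLp
    rw [h0] at h1
    have h2 : ∀ᵐ z ∂haarZ2, False := by
      filter_upwards [h1, Lp.coeFn_zero ℂ 1 haarZ2] with z hz1 hz2
      have := hFn z
      rw [← hz1, hz2] at this
      simp at this
    have h3 : haarZ2 Set.univ = 0 := by
      have := ae_iff.1 h2
      simpa using this
    rw [measure_univ] at h3
    exact one_ne_zero h3
  have hlim := Filter.Tendsto.compMeasurePreservingLp (p := 1) (μ := haarZ2) (ν := haarZ2)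
    (tendsto_const_nhds (x := f) (f := atTop)) trans_tendsto
    (fun k => mp_add (-(2 : Z2) ^ k)) (mp_add 0) (by norm_num)
  have e1 : ∀ k : ℕ, Lp.compMeasurePreserving (trans (-(2 : Z2) ^ k)) (mp_add (-(2 : Z2) ^ k)) f =
      (om ^ (2 ^ k)) • f := by
    intro k
    apply Lp.ext
    have hh := hiter (2 ^ k)
    have h1 := Lp.coeFn_compMeasurePreserving f (mp_add (-(2 : Z2) ^ k))
    have h2 : f =ᵐ[haarZ2] F := hFmem.coeFn_toLp
    have h3 := (mp_add (-(2 : Z2) ^ k)).quasiMeasurePreserving.ae h2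
    filter_upwards [hh, h1, h2, h3, Lp.coeFn_smul (om ^ (2 ^ k)) f] with z a1 a2 a3 a4 a5
    rw [a5, Pi.smul_apply, a3, smul_eq_mul, ← a1]
    have : (-((2 ^ k : ℕ) : Z2)) = -(2 : Z2) ^ k := by push_cast; rfl
    rw [this, ← a4]
    exact a2
  have e2 : Lp.compMeasurePreserving (trans 0) (mp_add 0) f = f := by
    apply Lp.ext
    have h1 := Lp.coeFn_compMeasurePreserving f (mp_add 0)
    filter_upwards [h1] with z a1
    refine a1.trans ?_
    simp
  rw [e2] at hlim
  have hlim2 : Tendsto (fun k : ℕ => ‖(om ^ (2 ^ k)) • f - f‖) atTop (𝓝 0) := by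
    have h1 : Tendsto (fun k : ℕ => (om ^ (2 ^ k)) • f) atTop (𝓝 f) := by
      refine hlim.congr fun k => e1 k
    have := (tendsto_iff_norm_sub_tendsto_zero.1 h1)
    exact this
  obtain ⟨δ, hδ, hlow⟩ := om_lower
  have h3 : ∀ k : ℕ, δ * ‖f‖ ≤ ‖(om ^ (2 ^ k)) • f - f‖ := by
    intro k
    have : (om ^ (2 ^ k)) • f - f = (om ^ (2 ^ k) - 1) • f := by rw [sub_smul, one_smul]
    rw [this, norm_smul]
    exact mul_le_mul_of_nonneg_right (hlow k) (norm_nonneg _)
  have h4 := ge_of_tendsto hlim2 (Eventually.of_forall h3)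
  have h5 : 0 < δ * ‖f‖ := mul_pos hδ hfne
  linarith

end Pool.Agent.H82.Hen
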