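import Pool.Agent.H82.Hen.Weight
import Pool.Agent.H82.Hen.NonCob

/-!
# The observable
-/

open MeasureTheory Set Filter Topology
open scoped NNReal ENNReal

noncomputable section

namespace Pool.Agent.H82.Hen

/-- The observable. -/
def gobs (z : ℂ × ℂ) : ℝ := max 0 (min 1 (z.1.re + 1 / 2)) - 1 / 3

theorem lipschitz_gobs : LipschitzWith 1 gobs := by
  have h1 : LipschitzWith 1 (fun z : ℂ × ℂ => z.1.re) := by
    refine LipschitzWith.of_dist_le_mul fun z w => ?_
    rw [NNReal.coe_one, one_mul, Real.dist_eq, ← Complex.sub_re]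
    refine (Complex.abs_re_le_norm _).trans ?_
    rw [← dist_eq_norm, Prod.dist_eq]
    exact le_max_left _ _
  have h2 : LipschitzWith 1 (fun z : ℂ × ℂ => z.1.re + 1 / 2) := by
    refine LipschitzWith.of_dist_le_mul fun z w => ?_
    rw [dist_add_right]
    exact h1.dist_le_mul z w
  have h3 : LipschitzWith 1 (fun z : ℂ × ℂ => max 0 (min 1 (z.1.re + 1 / 2))) :=
    (h2.const_min 1).const_max 0
  refine LipschitzWith.of_dist_le_mul fun z w => ?_
  unfold gobs
  rw [dist_sub_right]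
  exact h3.dist_le_mul z w

theorem isHolder_gobs : IsHolder gobs :=
  ⟨1, 1, by norm_num, le_rfl, holderWith_one.2 lipschitz_gobs⟩

theorem gobs_of_mem {z : ℂ × ℂ} (hz : z ∈ hK) :
    gobs z = (if code z 0 = true then (1 : ℝ) else 0) - 1 / 3 := by
  have h1 := abs_re hz 0
  rw [X_zero] at h1
  unfold gobs code
  rw [X_zero]
  by_cases h : 0 < z.1.re
  · rw [abs_of_pos h] at h1
    rw [min_eq_left (by linarith), max_eq_right (by norm_num)]
    simp [h]
  · rw [abs_of_nonpos (not_lt.1 h)] at h1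
    rw [min_eq_right (by linarith), max_eq_left (by linarith)]
    simp [h]

theorem iterate_mem {z : ℂ × ℂ} (hz : z ∈ hK) (j : ℕ) : hf^[j] z ∈ hK := by
  induction j generalizing z with
  | zero => exact hz
  | succ j ih => rw [Function.iterate_succ_apply]; exact ih (hf_mem hz)

theorem birkhoff_gobs {z : ℂ × ℂ} (hz : z ∈ hK) (n : ℕ) :
    birkhoffSum hf gobs n z = (ones (code z) n : ℝ) - n / 3 := by
  unfold birkhoffSum
  have h1 : ∀ j ∈ Finset.range n, gobs (hf^[j] z) =
      (if code z j = true then (1 : ℝ) else 0) - 1 / 3 := by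
    intro j _
    rw [gobs_of_mem (iterate_mem hz j), code_iterate]
    simp [shift]
  rw [Finset.sum_congr rfl h1, Finset.sum_sub_distrib]
  congr 1
  · rw [Finset.sum_boole]; rfl
  · simp; ring

theorem measurable_gobs : Measurable gobs := lipschitz_gobs.continuous.measurable

theorem abs_gobs_le (z : ℂ × ℂ) : ‖gobs z‖ ≤ 1 := by
  unfold gobs
  rw [Real.norm_eq_abs, abs_le]
  have h1 : 0 ≤ max 0 (min 1 (z.1.re + 1 / 2)) := le_max_left _ _
  have h2 : max 0 (min 1 (z.1.re + 1 / 2)) ≤ 1 := max_le (by norm_num) (min_le_left _ _)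
  constructor <;> linarith

theorem integrable_gobs : Integrable gobs muH :=
  Integrable.of_bound measurable_gobs.aestronglyMeasurable 1 (Eventually.of_forall abs_gobs_le)

theorem birkhoff_small (ε : ℝ) (hε : 0 < ε) : ∃ n₀ : ℕ, ∀ n ≥ n₀,
    ∀ᵐ z ∂muH, |birkhoffSum hf gobs n z| ≤ ε * n := by
  obtain ⟨n₀, hn₀⟩ := ones_uniform ε hε
  refine ⟨n₀, fun n hn => ?_⟩
  filter_upwards [muH_good] with z hz
  rw [birkhoff_gobs hz.1]
  exact hn₀ n hn _ hz.2

theorem integral_birkhoff (n : ℕ) :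
    ∫ z, birkhoffSum hf gobs n z ∂muH = n * ∫ z, gobs z ∂muH := by
  unfold birkhoffSum
  have h1 : ∀ j ∈ Finset.range n, Integrable (fun z => gobs (hf^[j] z)) muH := by
    intro j _
    exact Integrable.of_bound
      (measurable_gobs.comp (muH_inv.iterate j).measurable).aestronglyMeasurable 1
      (Eventually.of_forall fun z => abs_gobs_le _)
  rw [integral_finsetSum _ h1]
  have h2 : ∀ j ∈ Finset.range n, ∫ z, gobs (hf^[j] z) ∂muH = ∫ z, gobs z ∂muH := by
    intro j _
    have h3 := (muH_inv.iterate j)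
    conv_rhs => rw [← h3.map_eq]
    rw [integral_map h3.measurable.aemeasurable measurable_gobs.aestronglyMeasurable]
  rw [Finset.sum_congr rfl h2, Finset.sum_const, Finset.card_range, nsmul_eq_mul]

theorem integral_gobs : ∫ z, gobs z ∂muH = 0 := by
  set I := ∫ z, gobs z ∂muH with hI
  have key : ∀ ε > 0, |I| ≤ ε := by
    intro ε hε
    obtain ⟨n₀, hn₀⟩ := birkhoff_small ε hε
    have h1 := hn₀ (n₀ + 1) (by omega)
    have h2 : ‖∫ z, birkhoffSum hf gobs (n₀ + 1) z ∂muH‖ ≤ ε * (n₀ + 1 : ℕ) := by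
      have := norm_integral_le_of_norm_le_const (μ := muH) (f := birkhoffSum hf gobs (n₀ + 1))
        (C := ε * (n₀ + 1 : ℕ)) (by
          filter_upwards [h1] with z hz
          rw [Real.norm_eq_abs]; exact hz)
      simpa using this
    rw [integral_birkhoff, ← hI, norm_mul, Real.norm_eq_abs, Real.norm_eq_abs] at h2
    have h3 : (0 : ℝ) < ((n₀ + 1 : ℕ) : ℝ) := by positivity
    rw [abs_of_pos h3, mul_comm] at h2
    exact le_of_mul_le_mul_right h2 h3
  have h0 : |I| ≤ 0 := le_of_forall_pos_le_add fun ε hε => by simpa using key ε hε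
  exact abs_nonpos_iff.1 h0

theorem eventually_null (ε : ℝ) (hε : 0 < ε) :
    ∀ᶠ n : ℕ in atTop, muH {z | ε < birkhoffSum hf gobs n z / n} = 0 := by
  obtain ⟨n₀, hn₀⟩ := birkhoff_small ε hε
  filter_upwards [eventually_ge_atTop n₀, eventually_gt_atTop 0] with n hn hn0
  have h1 := hn₀ n hn
  have h2 : ∀ᵐ z ∂muH, ¬ (ε < birkhoffSum hf gobs n z / n) := by
    filter_upwards [h1] with z hz
    rw [not_lt, div_le_iff₀ (by exact_mod_cast hn0)]
    exact (le_abs_self _).trans hz
  rw [ae_iff] at h2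
  simpa using h2

theorem not_hasLargeDeviations : ¬ HasLargeDeviations hf muH gobs := by
  rintro ⟨c, δ, hδ, -, -, -, h⟩
  obtain ⟨ε, hε, hε0⟩ := (h.and self_mem_nhdsWithin).exists
  have hε0' : (0 : ℝ) < ε := hε0
  have h1 : Tendsto (fun n : ℕ =>
      ENNReal.log (muH {z | ε < birkhoffSum hf gobs n z / n}) / (n : EReal)) atTop (𝓝 ⊥) := by
    refine tendsto_const_nhds.congr' ?_
    filter_upwards [eventually_null ε hε0', eventually_gt_atTop 0] with n hn hn0
    rw [hn, ENNReal.log_zero]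
    refine (EReal.bot_div_of_pos_ne_top ?_ ?_).symm
    · exact_mod_cast hn0
    · exact EReal.natCast_ne_top n
  have h2 := tendsto_nhds_unique h1 hε
  exact absurd h2 (EReal.bot_ne_coe _)

theorem not_isCoboundary : ¬ IsCoboundary hf muH gobs := by
  rintro ⟨u, hu, h⟩
  have hm : Measurable (pt ∘ seq) := measurable_pt.comp measurable_seq
  have hmu : muH = haarZ2.map (pt ∘ seq) := by
    unfold muH muSeq
    rw [Measure.map_map measurable_pt measurable_seq]
  refine not_coboundary_Z2 (u ∘ (pt ∘ seq)) ?_ ?_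
  · have h1 := hu.aestronglyMeasurable
    rw [hmu] at h1
    exact h1.comp_measurable hm
  · rw [hmu] at h
    have h1 := ae_of_ae_map hm.aemeasurable h
    filter_upwards [h1] with z hz
    simp only [Function.comp_apply] at hz ⊢
    rw [hf_pt, seq_shift, gobs_of_mem (pt_mem _), code_pt] at hz
    exact hz

/-- Disproof. -/
theorem main : ∃ f : ℂ × ℂ → ℂ × ℂ, IsHenon f ∧ ∃ φ : ℂ × ℂ → ℝ, Continuous φ ∧
    ∃ μ : Measure (ℂ × ℂ), IsUniqueEquilibriumState f φ μ ∧
    ∃ g : ℂ × ℂ → ℝ, IsHolder g ∧ Integrable g μ ∧ ∫ z, g z ∂μ = 0 ∧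
      ¬ IsCoboundary f μ g ∧ ¬ HasLargeDeviations f μ g ∧
      ∀ ε > 0, ∀ᶠ n : ℕ in atTop, μ {z | ε < birkhoffSum f g n z / n} = 0 := by
  obtain ⟨φ, hφ, hφK⟩ := exists_weight
  exact ⟨hf, isHenon_hf, φ, hφ, muH, isUnique_muH hφK, gobs, isHolder_gobs, integrable_gobs,
    integral_gobs, not_isCoboundary, not_hasLargeDeviations, eventually_null⟩

end Pool.Agent.H82.Hen
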