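import Pool.Agent.H82.Hen.Cost

/-!
# Subexponential growth of the partition function
-/

open Set

noncomputable section

namespace Pool.Agent.H82.Hen

/-- The partition function of words of length `N`. -/
def partZ (K N : ℕ) : ℝ := ∑ w : Fin N → Bool, Real.exp (-cost K N (ext w))

/-- The exponential rate. -/
def etaK (K : ℕ) : ℝ := (K + 2) * Real.log 2 / 2 ^ K

theorem etaK_nonneg (K : ℕ) : 0 ≤ etaK K := by
  unfold etaK
  have := Real.log_nonneg (show (1:ℝ) ≤ 2 by norm_num)
  positivity

theorem ext_append_left {m n : ℕ} (u : Fin m → Bool) (v : Fin n → Bool) (i : ℤ)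
    (h0 : 0 ≤ i) (h1 : i < m) : ext (Fin.append u v) i = ext u i := by
  obtain ⟨j, rfl⟩ := Int.eq_ofNat_of_zero_le h0
  have hj : j < m := by exact_mod_cast h1
  have e1 : ext (Fin.append u v) (j : ℤ) = Fin.append u v ⟨j, by omega⟩ :=
    ext_apply (Fin.append u v) ⟨j, by omega⟩
  have e2 : ext u (j : ℤ) = u ⟨j, hj⟩ := ext_apply u ⟨j, hj⟩
  rw [e1, e2]
  exact Fin.append_left u v ⟨j, hj⟩

theorem ext_append_right {m n : ℕ} (u : Fin m → Bool) (v : Fin n → Bool) (i : ℤ)
    (h0 : 0 ≤ i) (h1 : i < n) : ext (Fin.append u v) (i + m) = ext v i := by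
  obtain ⟨j, rfl⟩ := Int.eq_ofNat_of_zero_le h0
  have hj : j < n := by exact_mod_cast h1
  have e1 : ext (Fin.append u v) ((j : ℤ) + m) = Fin.append u v ⟨m + j, by omega⟩ := by
    have := ext_apply (Fin.append u v) ⟨m + j, by omega⟩
    rw [← this]
    congr 1
    push_cast
    ring
  have e2 : ext v (j : ℤ) = v ⟨j, hj⟩ := ext_apply v ⟨j, hj⟩
  rw [e1, e2]
  exact Fin.append_right u v ⟨j, hj⟩

open Classical in
theorem block_sum_le (K k M : ℕ) :
    ∑ w : Fin (2 ^ k + M) → Bool, (if Reg k 0 (2 ^ k) (ext w) then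
      Real.exp (-cost K M (shift (2 ^ k) (ext w))) else 0) ≤ 2 ^ (k + 1) * partZ K M := by
  rw [← Equiv.sum_comp (Fin.appendEquiv (α := Bool) (2 ^ k) M), Fintype.sum_prod_type]
  have h : ∀ (u : Fin (2 ^ k) → Bool) (v : Fin M → Bool),
      (if Reg k 0 (2 ^ k) (ext (Fin.appendEquiv (2 ^ k) M (u, v))) then
      Real.exp (-cost K M (shift (2 ^ k) (ext (Fin.appendEquiv (2 ^ k) M (u, v))))) else 0) =
      (if Reg k 0 (2 ^ k) (ext u) then (1:ℝ) else 0) * Real.exp (-cost K M (ext v)) := by
    intro u v
    have e0 : (Fin.appendEquiv (2 ^ k) M (u, v)) = Fin.append u v := rfl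
    rw [e0]
    have e1 : Reg k 0 (2 ^ k) (ext (Fin.append u v)) ↔ Reg k 0 (2 ^ k) (ext u) :=
      reg_congr fun n h1 h2 => ext_append_left u v n h1 (by push_cast; exact h2)
    have e2 : cost K M (shift (2 ^ k) (ext (Fin.append u v))) = cost K M (ext v) := by
      refine cost_congr K M _ _ fun n h1 h2 => ?_
      have := ext_append_right u v n h1 h2
      rw [← this]
      simp [shift]
    rw [e2]
    by_cases hr : Reg k 0 (2 ^ k) (ext u)
    · rw [if_pos (e1.2 hr), if_pos hr, one_mul]
    · rw [if_neg (fun h => hr (e1.1 h)), if_neg hr, zero_mul]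
  simp only [h]
  simp only [← Finset.mul_sum]
  rw [← Finset.sum_mul]
  have hc : ∑ u : Fin (2 ^ k) → Bool, (if Reg k 0 (2 ^ k) (ext u) then (1:ℝ) else 0) ≤
      2 ^ (k + 1) := by
    rw [Finset.sum_boole]
    exact_mod_cast card_reg_le k
  refine mul_le_mul_of_nonneg_right hc ?_
  exact Finset.sum_nonneg fun _ _ => (Real.exp_pos _).le

theorem exp_blockCost_le (k : ℕ) : Real.exp (-blockCost k) * 2 ^ (k + 1) ≤ 1 / 4 * (1 / 2) ^ k := by
  have h1 : (1 : ℝ) + k * (1 / 2) ≤ (3 / 2) ^ k := by
    have := one_add_mul_le_pow (show (-2 : ℝ) ≤ 1 / 2 by norm_num) k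
    norm_num at this ⊢
    exact this
  have h2 : blockCost k = 9 / 2 * (3 / 2) ^ k := by
    unfold blockCost
    have : (3 / 2 : ℝ) = 2 * (3 / 4) := by norm_num
    rw [this, mul_pow]
    ring
  have h3 : (2 * k + 3 : ℝ) ≤ blockCost k := by
    rw [h2]
    have : (0 : ℝ) ≤ k := by positivity
    nlinarith
  have h4 : (2 : ℝ) ^ (2 * k + 3) ≤ Real.exp (blockCost k) := by
    have h5 : Real.exp ((2 * k + 3 : ℕ) : ℝ) ≤ Real.exp (blockCost k) := by
      apply Real.exp_le_exp.2
      push_cast
      exact h3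
    refine le_trans ?_ h5
    have h6 : Real.exp ((2 * k + 3 : ℕ) : ℝ) = (Real.exp 1) ^ (2 * k + 3) := by
      rw [← Real.exp_nat_mul, mul_one]
    rw [h6]
    apply pow_le_pow_left₀ (by norm_num)
    linarith [Real.add_one_le_exp (1:ℝ)]
  rw [Real.exp_neg]
  have h7 : (0 : ℝ) < Real.exp (blockCost k) := Real.exp_pos _
  rw [inv_mul_le_iff₀ h7]
  have h8 : (2 : ℝ) ^ (k + 1) = 2 ^ (2 * k + 3) * (1 / 4 * (1 / 2) ^ k) := by
    have : (2 : ℝ) ^ (2 * k + 3) = 2 ^ k * 2 ^ k * 8 := by ring
    rw [this, pow_succ, one_div_pow]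
    field_simp
    norm_num
  rw [h8]
  exact mul_le_mul_of_nonneg_right h4 (by positivity)

theorem partZ_le (K : ℕ) : ∀ N, partZ K N ≤ 2 ^ (2 ^ K) * Real.exp (etaK K * N) := by
  classical
  intro N
  induction N using Nat.strong_induction_on with
  | _ N ih =>
    by_cases hN : N < 2 ^ K
    · have h1 : partZ K N = 2 ^ N := by
        unfold partZ
        simp [cost_of_lt hN]
      rw [h1]
      have h2 : (2 : ℝ) ^ N ≤ 2 ^ (2 ^ K) := pow_le_pow_right₀ (by norm_num) hN.le
      have h3 : (1 : ℝ) ≤ Real.exp (etaK K * N) :=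
        Real.one_le_exp (mul_nonneg (etaK_nonneg K) (by positivity))
      have h4 : (0 : ℝ) < 2 ^ (2 ^ K) := by positivity
      nlinarith
    · -- the recursion
      set gk : ℕ → ℝ := fun k => if k < K then Real.exp (-blockCost k) else 1 with hgk
      have hgk0 : ∀ k, 0 ≤ gk k := by
        intro k; simp only [hgk]; split_ifs <;> positivity
      have hle2 : ∀ k ∈ Finset.range (K + 1), 2 ^ k ≤ N := by
        intro k hk
        have : 2 ^ k ≤ 2 ^ K := Nat.pow_le_pow_right (by norm_num)
          (Nat.lt_succ_iff.1 (Finset.mem_range.1 hk))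
        omega
      have hpt : ∀ w : Fin N → Bool, Real.exp (-cost K N (ext w)) ≤
          ∑ k ∈ Finset.range (K + 1), gk k * (if Reg k 0 (2 ^ k) (ext w) then
            Real.exp (-cost K (N - 2 ^ k) (shift (2 ^ k) (ext w))) else 0) := by
        intro w
        set l := level K (ext w) with hl
        have hmem : l ∈ Finset.range (K + 1) :=
          Finset.mem_range.2 (Nat.lt_succ_of_le (level_le K (ext w)))
        refine le_trans (le_of_eq ?_) (Finset.single_le_sum
          (f := fun k => gk k * (if Reg k 0 (2 ^ k) (ext w) then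
            Real.exp (-cost K (N - 2 ^ k) (shift (2 ^ k) (ext w))) else 0)) ?_ hmem)
        · rw [if_pos (level_reg K (ext w)), cost_of_ge hN, neg_add, Real.exp_add]
          congr 1
          simp only [hgk, ← hl]
          split_ifs <;> simp
        · intro k _
          refine mul_nonneg (hgk0 k) ?_
          split_ifs <;> positivity
      have hsum : partZ K N ≤ ∑ k ∈ Finset.range (K + 1),
          gk k * (2 ^ (k + 1) * partZ K (N - 2 ^ k)) := by
        unfold partZ
        refine (Finset.sum_le_sum fun w _ => hpt w).trans ?_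
        rw [Finset.sum_comm]
        refine Finset.sum_le_sum fun k hk => ?_
        rw [← Finset.mul_sum]
        refine mul_le_mul_of_nonneg_left ?_ (hgk0 k)
        obtain ⟨M, rfl⟩ := Nat.exists_eq_add_of_le (hle2 k hk)
        rw [Nat.add_sub_cancel_left]
        exact block_sum_le K k M
      refine hsum.trans ?_
      -- use the induction hypothesis
      have hD : (0 : ℝ) < 2 ^ (2 ^ K) := by positivity
      have hstep : ∀ k ∈ Finset.range (K + 1), gk k * (2 ^ (k + 1) * partZ K (N - 2 ^ k)) ≤
          (2 ^ (2 ^ K) * Real.exp (etaK K * N)) *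
            (gk k * 2 ^ (k + 1) * Real.exp (-(etaK K * 2 ^ k))) := by
        intro k hk
        have h2k : 0 < 2 ^ k := by positivity
        have h1 := ih (N - 2 ^ k) (by have := hle2 k hk; omega)
        have h2 : Real.exp (etaK K * ((N - 2 ^ k : ℕ) : ℝ)) =
            Real.exp (etaK K * N) * Real.exp (-(etaK K * 2 ^ k)) := by
          rw [← Real.exp_add, Nat.cast_sub (hle2 k hk)]
          congr 1
          push_cast
          ring
        rw [h2] at h1
        have h3 : gk k * (2 ^ (k + 1) * partZ K (N - 2 ^ k)) ≤ gk k * (2 ^ (k + 1) *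
            (2 ^ (2 ^ K) * (Real.exp (etaK K * N) * Real.exp (-(etaK K * 2 ^ k))))) :=
          mul_le_mul_of_nonneg_left (mul_le_mul_of_nonneg_left h1 (by positivity)) (hgk0 k)
        refine h3.trans (le_of_eq (by ring))
      refine (Finset.sum_le_sum hstep).trans ?_
      rw [← Finset.mul_sum]
      have hfin : ∑ k ∈ Finset.range (K + 1), gk k * 2 ^ (k + 1) *
          Real.exp (-(etaK K * 2 ^ k)) ≤ 1 := by
        rw [Finset.sum_range_succ]
        have h1 : ∑ k ∈ Finset.range K, gk k * 2 ^ (k + 1) * Real.exp (-(etaK K * 2 ^ k)) ≤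
            1 / 2 := by
          have h2 : ∀ k ∈ Finset.range K, gk k * 2 ^ (k + 1) * Real.exp (-(etaK K * 2 ^ k)) ≤
              1 / 4 * (1 / 2) ^ k := by
            intro k hk
            have hlt := Finset.mem_range.1 hk
            have h3 : gk k = Real.exp (-blockCost k) := by simp only [hgk]; rw [if_pos hlt]
            rw [h3]
            have h4 : Real.exp (-(etaK K * 2 ^ k)) ≤ 1 := by
              rw [Real.exp_le_one_iff]
              have := etaK_nonneg K
              have : 0 ≤ etaK K * 2 ^ k := by positivity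
              linarith
            have h5 := exp_blockCost_le k
            have h6 : 0 ≤ Real.exp (-blockCost k) * 2 ^ (k + 1) := by positivity
            calc _ ≤ Real.exp (-blockCost k) * 2 ^ (k + 1) * 1 :=
                  mul_le_mul_of_nonneg_left h4 h6
              _ ≤ _ := by rw [mul_one]; exact h5
          refine (Finset.sum_le_sum h2).trans ?_
          rw [← Finset.mul_sum]
          have h7 : ∑ k ∈ Finset.range K, (1 / 2 : ℝ) ^ k ≤ 2 := by
            have h8 := (summable_geometric_two).sum_le_tsum (Finset.range K)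
              (fun i _ => by positivity)
            rw [tsum_geometric_two] at h8
            exact h8
          linarith
        have h2 : gk K * 2 ^ (K + 1) * Real.exp (-(etaK K * 2 ^ K)) = 1 / 2 := by
          have h3 : gk K = 1 := by simp only [hgk]; rw [if_neg (lt_irrefl _)]
          have h4 : etaK K * 2 ^ K = (K + 2 : ℕ) * Real.log 2 := by
            unfold etaK
            push_cast
            field_simp
          rw [h3, h4, Real.exp_neg, Real.exp_nat_mul, Real.exp_log (by norm_num)]
          rw [pow_succ (2:ℝ) K, show K + 2 = (K + 1) + 1 from rfl, pow_succ (2:ℝ) (K+1),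
            pow_succ (2:ℝ) K]
          field_simp
        linarith
      calc 2 ^ (2 ^ K) * Real.exp (etaK K * N) * ∑ k ∈ Finset.range (K + 1), gk k * 2 ^ (k + 1) *
          Real.exp (-(etaK K * 2 ^ k)) ≤ 2 ^ (2 ^ K) * Real.exp (etaK K * N) * 1 :=
            mul_le_mul_of_nonneg_left hfin (by positivity)
        _ = _ := mul_one _

theorem tendsto_etaK : Filter.Tendsto etaK Filter.atTop (nhds 0) := by
  unfold etaK
  have h1 : Filter.Tendsto (fun K : ℕ => ((K : ℝ) * (1 / 2) ^ K)) Filter.atTop (nhds 0) :=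
    tendsto_self_mul_const_pow_of_lt_one (by norm_num) (by norm_num)
  have h2 : Filter.Tendsto (fun K : ℕ => ((1 / 2 : ℝ) ^ K)) Filter.atTop (nhds 0) :=
    tendsto_pow_atTop_nhds_zero_of_lt_one (by norm_num) (by norm_num)
  have h3 := (h1.mul_const (Real.log 2)).add (h2.mul_const (2 * Real.log 2))
  simp only [zero_mul, add_zero] at h3
  refine h3.congr fun K => ?_
  rw [one_div_pow]
  field_simp

end Pool.Agent.H82.Hen
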