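import Pool.Agent.H82.Hen.Cost

/-!
# Unique ergodicity of the period-doubling system
-/

open MeasureTheory Set Filter Topology

noncomputable section

namespace Pool.Agent.H82.Hen

theorem val_eq {i : ℕ} {d : ℤ} (h : (2 : ℤ) ^ i ∣ d) (h' : ¬ (2 : ℤ) ^ (i + 1) ∣ d) :
    padicValInt 2 d = i := by
  have hd : d ≠ 0 := fun h0 => h' (h0 ▸ dvd_zero _)
  have h1 : i ≤ padicValInt 2 d := by
    rcases (padicValInt_dvd_iff (p := 2) i d).1 h with h2 | h2
    · exact absurd h2 hd
    · exact h2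
  have h3 : ¬ i + 1 ≤ padicValInt 2 d := fun h4 =>
    h' ((padicValInt_dvd_iff (p := 2) (i + 1) d).2 (Or.inr h4))
  omega

/-- a number in a given residue class in a long window. -/
theorem exists_mem_class {a b c M : ℤ} (hM : 0 < M) (h : a + M ≤ b) :
    ∃ n, a ≤ n ∧ n < b ∧ M ∣ n - c := by
  refine ⟨a + (c - a) % M, ?_, ?_, ?_⟩
  · linarith [Int.emod_nonneg (c - a) hM.ne']
  · linarith [Int.emod_lt_of_pos (c - a) hM]
  · have : a + (c - a) % M - c = -((c - a) - (c - a) % M) := by ring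
    rw [this]
    exact (dvd_neg).2 Int.dvd_self_sub_emod

theorem phase_unique {k : ℕ} {a b : ℤ} {s : ℤ → Bool} {r r' : ℤ}
    (h : RegAt (k + 1) a b s r) (h' : RegAt (k + 1) a b s r') (hab : a + 2 ^ (k + 1) ≤ b) :
    (2 : ℤ) ^ k ∣ r - r' := by
  have key : ∀ j ≤ k, (2 : ℤ) ^ j ∣ r - r' := by
    intro j
    induction j with
    | zero => intro _; simp
    | succ j ih =>
      intro hj
      have ihj := ih (by omega)
      by_contra hc
      -- choose `n`
      obtain ⟨n, hn1, hn2, hn3⟩ := exists_mem_class (a := a) (b := b) (c := r + 2 ^ (j + 1))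
        (M := 2 ^ (j + 2)) (by positivity)
        (le_trans (by
          have : (2 : ℤ) ^ (j + 2) ≤ 2 ^ (k + 1) := pow_le_pow_right₀ (by norm_num) (by omega)
          linarith) hab)
      obtain ⟨t, ht⟩ := hn3
      have e1 : n - r = 2 ^ (j + 1) * (2 * t + 1) := by
        have : n = r + 2 ^ (j + 1) + 2 ^ (j + 2) * t := by linarith
        rw [this]; ring
      have hd1 : (2 : ℤ) ^ (j + 1) ∣ n - r := ⟨_, e1⟩
      have hd2 : ¬ (2 : ℤ) ^ (j + 2) ∣ n - r := by
        rintro ⟨u, hu⟩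
        rw [e1] at hu
        have h2 : (2 : ℤ) ^ (j + 1) * (2 * t + 1) = 2 ^ (j + 1) * (2 * u) := by
          rw [hu]; ring
        have h3 := mul_left_cancel₀ (by positivity : (2 : ℤ) ^ (j + 1) ≠ 0) h2
        omega
      have hv1 : padicValInt 2 (n - r) = j + 1 := val_eq hd1 hd2
      obtain ⟨u, hu⟩ := ihj
      have hodd : ¬ (2 : ℤ) ∣ u := by
        rintro ⟨v, hv⟩
        apply hc
        refine ⟨v, ?_⟩
        rw [hu, hv]; ring
      have e2 : n - r' = 2 ^ j * (2 * (2 * t + 1) + u) := by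
        have : n - r' = (n - r) + (r - r') := by ring
        rw [this, e1, hu]; ring
      have hd3 : (2 : ℤ) ^ j ∣ n - r' := ⟨_, e2⟩
      have hd4 : ¬ (2 : ℤ) ^ (j + 1) ∣ n - r' := by
        rintro ⟨v, hv⟩
        rw [e2] at hv
        have h2 : (2 : ℤ) ^ j * (2 * (2 * t + 1) + u) = 2 ^ j * (2 * v) := by
          rw [hv]; ring
        have h3 := mul_left_cancel₀ (by positivity : (2 : ℤ) ^ j ≠ 0) h2
        exact hodd ⟨v - (2 * t + 1), by linarith⟩
      have hv2 : padicValInt 2 (n - r') = j := val_eq hd3 hd4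
      have s1 := h n hn1 hn2 (fun hh => hd2 ((pow_dvd_pow 2 (by omega)).trans hh))
      have s2 := h' n hn1 hn2 (fun hh => hd4 ((pow_dvd_pow 2 (by omega)).trans hh))
      rw [s1] at s2
      unfold par at s2
      rw [hv1, hv2] at s2
      have := decide_eq_decide.1 s2
      rw [Nat.odd_add_one] at this
      exact (by tauto : False)
  exact key k le_rfl

/-- Sequences which are regular at all scales. -/
def Good (s : ℤ → Bool) : Prop := ∀ (k : ℕ) (a b : ℤ), b - a ≤ 2 ^ (k + 1) → Reg k a b s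

theorem good_of_psi {s : ℤ → Bool} (h : ∀ j : ℤ, psi (shift j s) = 0) : Good s := by
  intro k a b hab
  have h1 := reg_of_psi_eq_zero (h (a + 2 ^ k)) k
  rw [reg_shift] at h1
  refine h1.mono (by linarith) ?_
  have : (2 : ℤ) ^ (k + 1) = 2 * 2 ^ k := by ring
  linarith

/-- The set of sequences with phase `i` modulo `2ᵏ`. -/
def phaseSet (k : ℕ) (i : ℤ) : Set (ℤ → Bool) :=
  {s | ∃ r, (2 : ℤ) ^ k ∣ r - i ∧ RegAt (k + 1) 0 (2 ^ (k + 1)) s r}

theorem measurableSet_regAt (k : ℕ) (a b r : ℤ) : MeasurableSet {s | RegAt k a b s r} := by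
  have : {s | RegAt k a b s r} = ⋂ n : ℤ, {s : ℤ → Bool | a ≤ n → n < b →
      ¬ ((2 : ℤ) ^ k ∣ n - r) → s n = par (n - r)} := by
    ext s; simp [RegAt]
  rw [this]
  refine MeasurableSet.iInter fun n => ?_
  by_cases hc : a ≤ n ∧ n < b ∧ ¬ ((2 : ℤ) ^ k ∣ n - r)
  · have : {s : ℤ → Bool | a ≤ n → n < b → ¬ ((2 : ℤ) ^ k ∣ n - r) → s n = par (n - r)} =
        (fun s => s n) ⁻¹' {par (n - r)} := by
      ext s; simp [hc.1, hc.2.1, hc.2.2]
    rw [this]
    exact measurable_pi_apply n (measurableSet_singleton _)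
  · have : {s : ℤ → Bool | a ≤ n → n < b → ¬ ((2 : ℤ) ^ k ∣ n - r) → s n = par (n - r)} =
        Set.univ := by
      ext s
      simp only [mem_ofPred_eq, mem_univ, iff_true]
      intro h1 h2 h3
      exact absurd ⟨h1, h2, h3⟩ hc
    rw [this]
    exact MeasurableSet.univ

theorem measurableSet_phaseSet (k : ℕ) (i : ℤ) : MeasurableSet (phaseSet k i) := by
  have : phaseSet k i = ⋃ r : ℤ, ⋃ _ : (2 : ℤ) ^ k ∣ r - i,
      {s | RegAt (k + 1) 0 (2 ^ (k + 1)) s r} := by
    ext s; simp [phaseSet]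
  rw [this]
  exact MeasurableSet.iUnion fun r => MeasurableSet.iUnion fun _ => measurableSet_regAt _ _ _ _

theorem measurable_shift (j : ℤ) : Measurable (shift j) :=
  measurable_pi_iff.2 fun n => measurable_pi_apply (n + j)

theorem mem_phaseSet_iff {k : ℕ} {s : ℤ → Bool} {r0 i : ℤ}
    (h : RegAt (k + 1) 0 (2 ^ (k + 1)) s r0) : s ∈ phaseSet k i ↔ (2 : ℤ) ^ k ∣ r0 - i := by
  constructor
  · rintro ⟨r, hr1, hr2⟩
    have h3 := phase_unique h hr2 (by simp)
    have : r0 - i = (r0 - r) + (r - i) := by ring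
    rw [this]
    exact dvd_add h3 hr1
  · intro h1
    exact ⟨r0, h1, h⟩

theorem shift_phase {k : ℕ} {s : ℤ → Bool} (hs : Good s) (i : ℤ) :
    s ∈ phaseSet k (i + 1) ↔ shift 1 s ∈ phaseSet k i := by
  obtain ⟨r0, hr0⟩ := hs (k + 1) 0 (2 ^ (k + 1) + 1) (by
    have h1 : (2 : ℤ) ^ (k + 1 + 1) = 2 * 2 ^ (k + 1) := by ring
    have h2 : (1 : ℤ) ≤ 2 ^ (k + 1) := one_le_pow₀ (by norm_num)
    linarith)
  have h1 : RegAt (k + 1) 0 (2 ^ (k + 1)) s r0 := hr0.mono le_rfl (by linarith)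
  have h2 : RegAt (k + 1) 0 (2 ^ (k + 1)) (shift 1 s) (r0 - 1) := by
    rw [regAt_shift]
    have := hr0.mono (show (0 : ℤ) ≤ 0 + 1 by norm_num) le_rfl
    simpa using this
  rw [mem_phaseSet_iff h1, mem_phaseSet_iff h2]
  have : r0 - (i + 1) = r0 - 1 - i := by ring
  rw [this]

theorem measure_phaseSet (ν : Measure (ℤ → Bool)) [IsProbabilityMeasure ν]
    (hinv : MeasurePreserving (shift 1) ν ν) (hgood : ∀ᵐ s ∂ν, Good s) (k : ℕ) (i : ℕ) :
    ν.real (phaseSet k i) = (1 / 2) ^ k := by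
  have hstep : ∀ i : ℤ, ν (phaseSet k (i + 1)) = ν (phaseSet k i) := by
    intro i
    rw [← hinv.measure_preimage (measurableSet_phaseSet k i).nullMeasurableSet]
    refine measure_congr ?_
    filter_upwards [hgood] with s hs
    exact propext (shift_phase hs i)
  have hconst : ∀ i : ℕ, ν.real (phaseSet k i) = ν.real (phaseSet k 0) := by
    intro i
    induction i with
    | zero => simp
    | succ i ih =>
      rw [← ih, measureReal_def, measureReal_def]
      congr 1
      push_cast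
      exact hstep i
  have hdisj : Set.PairwiseDisjoint (↑(Finset.range (2 ^ k))) (fun i : ℕ => phaseSet k i) := by
    intro i hi j hj hij
    refine Set.disjoint_left.2 ?_
    rintro s ⟨r, hr1, hr2⟩ hs
    have h1 := (mem_phaseSet_iff hr2).1 hs
    apply hij
    have hi' : (i : ℤ) < 2 ^ k := by exact_mod_cast Finset.mem_range.1 (Finset.mem_coe.1 hi)
    have hj' : (j : ℤ) < 2 ^ k := by exact_mod_cast Finset.mem_range.1 (Finset.mem_coe.1 hj)
    have h2 : (2 : ℤ) ^ k ∣ (i : ℤ) - j := by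
      have : (i : ℤ) - j = (r - j) - (r - i) := by ring
      rw [this]
      exact dvd_sub h1 hr1
    have h3 := Int.eq_zero_of_abs_lt_dvd h2 (by
      rw [abs_lt]
      constructor <;> linarith [Int.natCast_nonneg i, Int.natCast_nonneg j])
    omega
  have hsum := measureReal_biUnion_finset (μ := ν) hdisj
    (fun i _ => measurableSet_phaseSet k i)
  have hun : ν.real (⋃ i ∈ Finset.range (2 ^ k), phaseSet k (i : ℕ)) = 1 := by
    have : ∀ᵐ s ∂ν, s ∈ (⋃ i ∈ Finset.range (2 ^ k), phaseSet k (i : ℕ)) := by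
      filter_upwards [hgood] with s hs
      obtain ⟨r, hr⟩ := hs (k + 1) 0 (2 ^ (k + 1)) (by
        have h1 : (2 : ℤ) ^ (k + 1 + 1) = 2 * 2 ^ (k + 1) := by ring
        have h2 : (1 : ℤ) ≤ 2 ^ (k + 1) := one_le_pow₀ (by norm_num)
        linarith)
      have hpos : (0 : ℤ) < 2 ^ k := by positivity
      have h0 : 0 ≤ r % 2 ^ k := Int.emod_nonneg _ hpos.ne'
      have h1 : r % 2 ^ k < 2 ^ k := Int.emod_lt_of_pos _ hpos
      refine Set.mem_iUnion₂.2 ⟨(r % 2 ^ k).toNat, ?_, ?_⟩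
      · rw [Finset.mem_range]
        have : (((r % 2 ^ k).toNat : ℕ) : ℤ) < ((2 ^ k : ℕ) : ℤ) := by
          rw [Int.toNat_of_nonneg h0]; push_cast; exact h1
        exact_mod_cast this
      · rw [Int.toNat_of_nonneg h0]
        exact ⟨r, Int.dvd_self_sub_emod, hr⟩
    have h1 : ν (⋃ i ∈ Finset.range (2 ^ k), phaseSet k (i : ℕ)) = ν Set.univ :=
      measure_congr (this.mono fun s hs => propext ⟨fun _ => trivial, fun _ => hs⟩)
    rw [measureReal_def, h1]
    simp
  rw [hsum, Finset.sum_congr rfl fun i _ => hconst i, Finset.sum_const, Finset.card_range,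
    nsmul_eq_mul] at hun
  rw [hconst, one_div_pow]
  push_cast at hun
  field_simp
  linarith

/-- Quantitative comparison of cylinder measures. -/
theorem cylinder_bound (ν : Measure (ℤ → Bool)) [IsProbabilityMeasure ν]
    (hinv : MeasurePreserving (shift 1) ν ν) (hgood : ∀ᵐ s ∂ν, Good s)
    (I : Finset ℤ) (w : ℤ → Bool) (k : ℕ) (hI : ∀ n ∈ I, -2 ^ k ≤ n ∧ n < 2 ^ k) :
    ∃ G : ℕ, G = (Finset.filter (fun i : ℕ => ∀ n ∈ I, ¬ (2 : ℤ) ^ k ∣ n - i ∧
      par (n - i) = w n) (Finset.range (2 ^ k))).card ∧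
      G * (1 / 2 : ℝ) ^ k ≤ ν.real {s | ∀ n ∈ I, s n = w n} ∧
      ν.real {s | ∀ n ∈ I, s n = w n} ≤ (G + I.card) * (1 / 2 : ℝ) ^ k := by
  classical
  set Gd := Finset.filter (fun i : ℕ => ∀ n ∈ I, ¬ (2 : ℤ) ^ k ∣ n - i ∧
      par (n - i) = w n) (Finset.range (2 ^ k)) with hGd
  set Bd := Finset.filter (fun i : ℕ => ∃ n ∈ I, (2 : ℤ) ^ k ∣ n - i) (Finset.range (2 ^ k))
    with hBd
  have hmeasC : MeasurableSet {s : ℤ → Bool | ∀ n ∈ I, s n = w n} := by
    have : {s : ℤ → Bool | ∀ n ∈ I, s n = w n} = ⋂ n ∈ I, (fun s => s n) ⁻¹' {w n} := by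
      ext s; simp
    rw [this]
    exact Finset.measurableSet_biInter _ fun n _ =>
      measurable_pi_apply n (measurableSet_singleton _)
  have hpos : (0 : ℤ) < 2 ^ k := by positivity
  -- structure of good sequences
  have hstr : ∀ s, Good s → ∃ r0, RegAt (k + 1) 0 (2 ^ (k + 1)) s r0 ∧
      ∀ n ∈ I, ∀ i : ℤ, (2 : ℤ) ^ k ∣ r0 - i → ¬ (2 : ℤ) ^ k ∣ n - i → s n = par (n - i) := by
    intro s hs
    obtain ⟨r0, hr0⟩ := hs (k + 1) (-2 ^ k) (2 ^ (k + 1)) (by
      have h1 : (2 : ℤ) ^ (k + 1 + 1) = 4 * 2 ^ k := by ring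
      have h2 : (2 : ℤ) ^ (k + 1) = 2 * 2 ^ k := by ring
      linarith)
    refine ⟨r0, hr0.mono (by linarith) le_rfl, ?_⟩
    intro n hn i hi hni
    have h1 := hI n hn
    have h2 : (2 : ℤ) ^ (k + 1) = 2 * 2 ^ k := by ring
    have hnr : ¬ (2 : ℤ) ^ k ∣ n - r0 := by
      intro h3
      apply hni
      have : n - i = (n - r0) + (r0 - i) := by ring
      rw [this]; exact dvd_add h3 hi
    rw [hr0 n h1.1 (by linarith [h1.2]) (fun h3 => hnr ((pow_dvd_pow 2 (by omega)).trans h3))]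
    refine par_congr (k := k) ?_ hnr
    have : n - r0 - (n - i) = -(r0 - i) := by ring
    rw [this]; exact (dvd_neg).2 hi
  have hcardB : Bd.card ≤ I.card := by
    have hsub : Bd ⊆ I.image (fun n => (n % 2 ^ k).toNat) := by
      intro i hi
      rw [hBd, Finset.mem_filter, Finset.mem_range] at hi
      obtain ⟨hi1, n, hn, hd⟩ := hi
      refine Finset.mem_image.2 ⟨n, hn, ?_⟩
      have hi1' : (i : ℤ) < 2 ^ k := by exact_mod_cast hi1
      have : n % 2 ^ k = i := by
        have h1 : n % 2 ^ k = (i : ℤ) % 2 ^ k :=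
          Int.emod_eq_emod_iff_emod_sub_eq_zero.2 (Int.emod_eq_zero_of_dvd hd)
        rw [h1, Int.emod_eq_of_lt (by positivity) hi1']
      rw [this]; simp
    exact (Finset.card_le_card hsub).trans Finset.card_image_le
  refine ⟨Gd.card, rfl, ?_, ?_⟩
  · -- lower bound
    have hdisj : Set.PairwiseDisjoint (↑Gd) (fun i : ℕ => phaseSet k i) := by
      intro i hi j hj hij
      refine Set.disjoint_left.2 ?_
      rintro s ⟨r, hr1, hr2⟩ hs
      have h1 := (mem_phaseSet_iff hr2).1 hs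
      apply hij
      have hi'' := Finset.mem_range.1 (Finset.mem_filter.1 (Finset.mem_coe.1 hi)).1
      have hj'' := Finset.mem_range.1 (Finset.mem_filter.1 (Finset.mem_coe.1 hj)).1
      have hi' : (i : ℤ) < 2 ^ k := by exact_mod_cast hi''
      have hj' : (j : ℤ) < 2 ^ k := by exact_mod_cast hj''
      have h2 : (2 : ℤ) ^ k ∣ (i : ℤ) - j := by
        have : (i : ℤ) - j = (r - j) - (r - i) := by ring
        rw [this]
        exact dvd_sub h1 hr1
      have h3 := Int.eq_zero_of_abs_lt_dvd h2 (by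
        rw [abs_lt]
        constructor <;> linarith [Int.natCast_nonneg i, Int.natCast_nonneg j])
      omega
    have hsum := measureReal_biUnion_finset (μ := ν) hdisj
      (fun i _ => measurableSet_phaseSet k i)
    rw [Finset.sum_congr rfl fun i _ => measure_phaseSet ν hinv hgood k i, Finset.sum_const,
      nsmul_eq_mul] at hsum
    rw [← hsum, measureReal_def, measureReal_def]
    refine ENNReal.toReal_mono (measure_ne_top _ _) ?_
    refine measure_mono_ae ?_
    filter_upwards [hgood] with s hs hmem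
    obtain ⟨i, hi, hsi⟩ := Set.mem_iUnion₂.1 hmem
    obtain ⟨r0, hr0, hcl⟩ := hstr s hs
    have h1 := (mem_phaseSet_iff hr0).1 hsi
    intro n hn
    obtain ⟨h2, h3⟩ := (Finset.mem_filter.1 hi).2 n hn
    rw [hcl n hn i h1 h2, h3]
  · -- upper bound
    have hsub : ν.real {s | ∀ n ∈ I, s n = w n} ≤
        ν.real (⋃ i ∈ Gd ∪ Bd, phaseSet k (i : ℕ)) := by
      rw [measureReal_def, measureReal_def]
      refine ENNReal.toReal_mono (measure_ne_top _ _) ?_
      refine measure_mono_ae ?_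
      filter_upwards [hgood] with s hs hmem
      obtain ⟨r0, hr0, hcl⟩ := hstr s hs
      have h0 : 0 ≤ r0 % 2 ^ k := Int.emod_nonneg _ hpos.ne'
      have h1 : r0 % 2 ^ k < 2 ^ k := Int.emod_lt_of_pos _ hpos
      set i := (r0 % 2 ^ k).toNat with hi
      have hieq : (i : ℤ) = r0 % 2 ^ k := by rw [hi, Int.toNat_of_nonneg h0]
      have hilt : i < 2 ^ k := by
        have : (i : ℤ) < ((2 ^ k : ℕ) : ℤ) := by rw [hieq]; push_cast; exact h1
        exact_mod_cast this
      have hdvd : (2 : ℤ) ^ k ∣ r0 - i := by rw [hieq]; exact Int.dvd_self_sub_emod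
      refine Set.mem_iUnion₂.2 ⟨i, ?_, (mem_phaseSet_iff hr0).2 hdvd⟩
      by_cases hb : ∃ n ∈ I, (2 : ℤ) ^ k ∣ n - i
      · exact Finset.mem_union_right _ (Finset.mem_filter.2 ⟨Finset.mem_range.2 hilt, hb⟩)
      · push Not at hb
        refine Finset.mem_union_left _ (Finset.mem_filter.2 ⟨Finset.mem_range.2 hilt, ?_⟩)
        intro n hn
        refine ⟨hb n hn, ?_⟩
        rw [← hcl n hn i hdvd (hb n hn)]
        exact hmem n hn
    refine hsub.trans ((measureReal_biUnion_finset_le _ _).trans ?_)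
    rw [Finset.sum_congr rfl fun i _ => measure_phaseSet ν hinv hgood k i, Finset.sum_const,
      nsmul_eq_mul]
    refine mul_le_mul_of_nonneg_right ?_ (by positivity)
    have h1 : (Gd ∪ Bd).card ≤ Gd.card + Bd.card := Finset.card_union_le _ _
    have h2 : (Gd ∪ Bd).card ≤ Gd.card + I.card := by omega
    exact_mod_cast h2

theorem cylinder_eq (ν₁ ν₂ : Measure (ℤ → Bool)) [IsProbabilityMeasure ν₁]
    [IsProbabilityMeasure ν₂]
    (h₁ : MeasurePreserving (shift 1) ν₁ ν₁) (g₁ : ∀ᵐ s ∂ν₁, Good s)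
    (h₂ : MeasurePreserving (shift 1) ν₂ ν₂) (g₂ : ∀ᵐ s ∂ν₂, Good s)
    (I : Finset ℤ) (w : ℤ → Bool) :
    ν₁.real {s | ∀ n ∈ I, s n = w n} = ν₂.real {s | ∀ n ∈ I, s n = w n} := by
  -- eventually the window is large enough
  have hI : ∀ᶠ k : ℕ in atTop, ∀ n ∈ I, -2 ^ k ≤ n ∧ n < 2 ^ k := by
    rw [Filter.eventually_all_finset]
    intro n _
    filter_upwards [eventually_ge_atTop n.natAbs] with k hk
    have h1 : (n.natAbs : ℤ) < 2 ^ k := by
      have h2 : n.natAbs < 2 ^ n.natAbs := Nat.lt_two_pow_self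
      have h3 : 2 ^ n.natAbs ≤ 2 ^ k := Nat.pow_le_pow_right (by norm_num) hk
      exact_mod_cast h2.trans_le h3
    rw [Int.natCast_natAbs, abs_lt] at h1
    exact ⟨h1.1.le, h1.2⟩
  have hlim : Tendsto (fun k : ℕ => (I.card : ℝ) * (1 / 2) ^ k) atTop (𝓝 0) := by
    have := (tendsto_pow_atTop_nhds_zero_of_lt_one (r := (1/2 : ℝ)) (by norm_num)
      (by norm_num)).const_mul (I.card : ℝ)
    simpa using this
  have hab : ∀ᶠ k : ℕ in atTop, |ν₁.real {s | ∀ n ∈ I, s n = w n} -
      ν₂.real {s | ∀ n ∈ I, s n = w n}| ≤ (I.card : ℝ) * (1 / 2) ^ k := by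
    filter_upwards [hI] with k hk
    obtain ⟨G, hG, l1, u1⟩ := cylinder_bound ν₁ h₁ g₁ I w k hk
    obtain ⟨G', hG', l2, u2⟩ := cylinder_bound ν₂ h₂ g₂ I w k hk
    have : G' = G := by rw [hG, hG']
    subst this
    rw [abs_le]
    constructor <;> linarith
  have := ge_of_tendsto hlim hab
  have h0 := abs_nonpos_iff.1 this
  linarith

/-- Unique ergodicity. -/
theorem good_measure_unique (ν₁ ν₂ : Measure (ℤ → Bool)) [IsProbabilityMeasure ν₁]
    [IsProbabilityMeasure ν₂]
    (h₁ : MeasurePreserving (shift 1) ν₁ ν₁) (g₁ : ∀ᵐ s ∂ν₁, Good s)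
    (h₂ : MeasurePreserving (shift 1) ν₂ ν₂) (g₂ : ∀ᵐ s ∂ν₂, Good s) : ν₁ = ν₂ := by
  classical
  have hP : IsProjectiveLimit ν₂ (fun I : Finset ℤ => ν₁.map I.restrict) := by
    intro I
    refine Measure.ext_of_singleton fun w => ?_
    have hpre : (Finset.restrict (π := fun _ : ℤ => Bool) I) ⁻¹' {w} =
        {s : ℤ → Bool | ∀ n ∈ I, s n = (if h : n ∈ I then w ⟨n, h⟩ else false)} := by
      ext s
      simp only [mem_preimage, mem_singleton_iff, mem_ofPred_eq]
      constructor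
      · intro h n hn
        rw [← h, dif_pos hn]; rfl
      · intro h
        funext n
        have := h n.1 n.2
        rw [dif_pos n.2] at this
        exact this
    rw [Measure.map_apply (Finset.measurable_restrict I) (measurableSet_singleton _),
      Measure.map_apply (Finset.measurable_restrict I) (measurableSet_singleton _), hpre]
    have := cylinder_eq ν₁ ν₂ h₁ g₁ h₂ g₂ I (fun n => if h : n ∈ I then w ⟨n, h⟩ else false)
    rw [measureReal_def, measureReal_def,
      ENNReal.toReal_eq_toReal_iff' (measure_ne_top _ _) (measure_ne_top _ _)] at this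
    exact this.symm
  have hP' : IsProjectiveLimit ν₁ (fun I : Finset ℤ => ν₁.map I.restrict) := fun I => rfl
  have : ∀ I : Finset ℤ, IsFiniteMeasure (ν₁.map I.restrict) := fun I => inferInstance
  exact hP'.unique hP

end Pool.Agent.H82.Hen
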