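import Pool.Agent.H82.Hen.Horse3
import Pool.Agent.H82.Hen.Partition
import Pool.Agent.H82.Hen.Haar

/-!
# The weight and the entropy bound
-/

open MeasureTheory Set Filter Topology
open scoped NNReal ENNReal

noncomputable section

namespace Pool.Agent.H82.Hen

theorem continuous_psiTerm (k : ℕ) : Continuous (psiTerm k) := by
  refine IsLocallyConstant.continuous ((IsLocallyConstant.iff_eventually_eq _).2 fun s => ?_)
  have hopen : ∀ᶠ s' in 𝓝 s, ∀ n ∈ Finset.Ico (-(2 : ℤ) ^ k) (2 ^ k), s' n = s n := by
    rw [Filter.eventually_all_finset]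
    intro n _
    have hc : ContinuousAt (fun s' : ℤ → Bool => s' n) s := (continuous_apply n).continuousAt
    exact hc.eventually (IsOpen.mem_nhds (isOpen_discrete {s n}) rfl)
  filter_upwards [hopen] with s' hs'
  classical
  unfold psiTerm
  have : Reg k (-2 ^ k) (2 ^ k) s' ↔ Reg k (-2 ^ k) (2 ^ k) s :=
    reg_congr fun n h1 h2 => hs' n (Finset.mem_Ico.2 ⟨h1, h2⟩)
  by_cases h : Reg k (-2 ^ k) (2 ^ k) s
  · rw [if_pos h, if_pos (this.2 h)]
  · rw [if_neg h, if_neg (fun h' => h (this.1 h'))]

theorem continuous_psi : Continuous psi := by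
  refine continuous_tsum continuous_psiTerm summable_geom fun k s => ?_
  rw [Real.norm_of_nonneg (psiTerm_nonneg k s)]
  exact psiTerm_le k s

theorem measurable_psi : Measurable psi := continuous_psi.measurable

theorem continuousOn_code : ContinuousOn code hK := by
  rw [continuousOn_pi]
  intro n z hz
  have h1 := abs_re hz n
  have hc : ContinuousAt (fun z : ℂ × ℂ => (X n z).re) z :=
    (Complex.continuous_re.comp (continuous_X n)).continuousAt
  refine ContinuousAt.continuousWithinAt ?_
  rcases lt_trichotomy (X n z).re 0 with h | h | h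
  · have h2 : ∀ᶠ y in 𝓝 z, code y n = code z n := by
      filter_upwards [hc.eventually (gt_mem_nhds h)] with y hy
      simp [code, not_lt.2 hy.le, not_lt.2 h.le]
    exact (continuousAt_const (y := code z n)).congr (by
      filter_upwards [h2] with y hy using hy.symm)
  · rw [h] at h1; norm_num at h1
  · have h2 : ∀ᶠ y in 𝓝 z, code y n = code z n := by
      filter_upwards [hc.eventually (lt_mem_nhds h)] with y hy
      simp [code, hy, h]
    exact (continuousAt_const (y := code z n)).congr (by
      filter_upwards [h2] with y hy using hy.symm)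

/-- The weight: a continuous extension of `-psi ∘ code` from the horseshoe to `ℂ²`. -/
theorem exists_weight : ∃ φ : ℂ × ℂ → ℝ, Continuous φ ∧ ∀ z ∈ hK, φ z = -psi (code z) := by
  have hc : Continuous (hK.domRestrict fun z => -psi (code z)) :=
    continuousOn_iff_continuous_domRestrict.1 (continuous_psi.neg.comp_continuousOn continuousOn_code)
  obtain ⟨φ, hφ⟩ := ContinuousMap.exists_restrict_eq isClosed_hK
    (⟨hK.domRestrict fun z => -psi (code z), hc⟩ : C(hK, ℝ))
  refine ⟨φ, φ.continuous, fun z hz => ?_⟩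
  have := DFunLike.congr_fun hφ ⟨z, hz⟩
  exact this

theorem integrable_psi_code (ν : Measure (ℂ × ℂ)) [IsProbabilityMeasure ν] :
    Integrable (fun z => psi (code z)) ν := by
  refine Integrable.of_bound (measurable_psi.comp measurable_code).aestronglyMeasurable 48
    (Eventually.of_forall fun z => ?_)
  rw [Real.norm_of_nonneg (psi_nonneg _)]
  exact psi_le _

/-- Entropy bound. -/
theorem ksEntropy_le {ν : Measure (ℂ × ℂ)} [IsProbabilityMeasure ν]
    (h : MeasurePreserving hf ν ν) :
    ksEntropy hf ν ≤ ((∫ z, (1 / 2) * psi (code z) ∂ν : ℝ) : EReal) := by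
  unfold ksEntropy
  refine iSup_le fun k => iSup_le fun ξ => iSup_le fun hξ => ?_
  have hK : ∀ K : ℕ, partEntropy hf ν ξ ≤
      ((∫ z, (1 / 2) * psi (code z) ∂ν + etaK K : ℝ) : EReal) := by
    intro K
    refine partEntropy_le ν h (fun z => code z 0) ?_ ξ hξ (fun z => (1 / 2) * psi (code z))
      ((integrable_psi_code ν).const_mul _) (fun N w => cost K N (ext w)) ?_ (2 ^ (2 ^ K))
      (etaK K) (by positivity) ?_ ?_
    · exact (measurable_pi_apply 0).comp measurable_code
    · intro N z
      have h1 : cost K N (ext (nameOf hf (fun z => code z 0) N z)) = cost K N (code z) := by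
        refine cost_congr K N _ _ fun n h0 h1 => ?_
        obtain ⟨j, rfl⟩ := Int.eq_ofNat_of_zero_le h0
        have hj : j < N := by exact_mod_cast h1
        have h2 := ext_apply (nameOf hf (fun z => code z 0) N z) ⟨j, hj⟩
        simp only at h2
        rw [h2]
        simp only [nameOf, code_iterate, shift, zero_add]
      simp only [h1]
      refine (cost_le K N (code z)).trans (le_of_eq ?_)
      refine Finset.sum_congr rfl fun j _ => ?_
      rw [code_iterate]
    · intro N
      exact partZ_le K N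
    · intro δ hδ
      exact approx_partition h ξ hξ δ hδ
  have hlim : Tendsto (fun K : ℕ => ((∫ z, (1 / 2) * psi (code z) ∂ν + etaK K : ℝ) : EReal)) atTop
      (𝓝 ((∫ z, (1 / 2) * psi (code z) ∂ν + 0 : ℝ) : EReal)) :=
    (continuous_coe_real_ereal.tendsto _).comp (tendsto_etaK.const_add _)
  rw [add_zero] at hlim
  exact ge_of_tendsto hlim (Eventually.of_forall hK)

/-- The invariant measure on `ℂ²`. -/
def muH : Measure (ℂ × ℂ) := muSeq.map pt

instance : IsProbabilityMeasure muH := Measure.isProbabilityMeasure_map measurable_pt.aemeasurable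

theorem muH_inv : MeasurePreserving hf muH muH := by
  refine ⟨continuous_hf.measurable, ?_⟩
  unfold muH
  rw [Measure.map_map continuous_hf.measurable measurable_pt]
  have : hf ∘ pt = pt ∘ shift 1 := by funext s; exact hf_pt s
  rw [this, ← Measure.map_map measurable_pt (measurable_shift 1), muSeq_inv.map_eq]

theorem psi_of_good {s : ℤ → Bool} (h : Good s) : psi s = 0 :=
  psi_eq_zero fun k => h k _ _ (le_of_eq (by ring))

theorem muH_good : ∀ᵐ z ∂muH, z ∈ hK ∧ Good (code z) := by
  have h1 : ∀ᵐ z ∂muH, z ∈ hK := ae_mem_hK muH_inv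
  have h2 : ∀ᵐ z ∂muH, Good (code z) := by
    unfold muH
    refine (ae_map_iff (p := fun z => Good (code z)) measurable_pt.aemeasurable
      (measurable_code measurableSet_good)).2 ?_
    filter_upwards [muSeq_good] with s hs
    rw [code_pt]
    exact hs
  filter_upwards [h1, h2] with z a b using ⟨a, b⟩

theorem X_zpow (n j : ℤ) (z : ℂ × ℂ) : X n ((hE ^ j) z) = X (n + j) z := by
  unfold X
  rw [zpow_add]; rfl

theorem code_zpow (j : ℤ) (z : ℂ × ℂ) : code ((hE ^ j) z) = shift j (code z) := by
  funext n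
  simp only [code, shift, X_zpow]

theorem freeEnergy_le {φ : ℂ × ℂ → ℝ} (hφ : ∀ z ∈ hK, φ z = -psi (code z))
    {ν : Measure (ℂ × ℂ)} (hν : IsInvariantProb hf ν) :
    freeEnergy hf φ ν ≤ ((-(1 / 2) * ∫ z, psi (code z) ∂ν : ℝ) : EReal) := by
  have := hν.prob
  have h1 := ksEntropy_le hν.inv
  have h2 : ∫ z, φ z ∂ν = -∫ z, psi (code z) ∂ν := by
    rw [← integral_neg]
    refine integral_congr_ae ?_
    filter_upwards [ae_mem_hK hν.inv] with z hz using hφ z hz
  unfold freeEnergy
  rw [h2]
  refine (add_le_add_left h1 _).trans (le_of_eq ?_)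
  rw [← EReal.coe_add, integral_const_mul]
  congr 1
  ring

theorem freeEnergy_muH {φ : ℂ × ℂ → ℝ} (hφ : ∀ z ∈ hK, φ z = -psi (code z)) :
    0 ≤ freeEnergy hf φ muH := by
  have h2 : ∫ z, φ z ∂muH = 0 := by
    refine integral_eq_zero_of_ae ?_
    filter_upwards [muH_good] with z hz
    rw [hφ z hz.1, psi_of_good hz.2]
    simp
  unfold freeEnergy
  rw [h2, EReal.coe_zero, add_zero]
  exact ksEntropy_nonneg _ _

theorem isInvariantProb_muH : IsInvariantProb hf muH := ⟨inferInstance, muH_inv⟩

theorem pressure_eq {φ : ℂ × ℂ → ℝ} (hφ : ∀ z ∈ hK, φ z = -psi (code z)) :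
    pressure hf φ = 0 := by
  refine le_antisymm ?_ ?_
  · refine iSup_le fun ν => iSup_le fun hν => (freeEnergy_le hφ hν).trans ?_
    rw [← EReal.coe_zero]
    refine EReal.coe_le_coe_iff.2 ?_
    have : 0 ≤ ∫ z, psi (code z) ∂ν := integral_nonneg fun z => psi_nonneg _
    linarith
  · exact (freeEnergy_muH hφ).trans (le_iSup_of_le muH (le_iSup_of_le isInvariantProb_muH le_rfl))

theorem eq_muH {φ : ℂ × ℂ → ℝ} (hφ : ∀ z ∈ hK, φ z = -psi (code z))
    {ν : Measure (ℂ × ℂ)} (hν : IsEquilibriumState hf φ ν) : ν = muH := by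
  obtain ⟨hinv, heq⟩ := hν
  have := hinv.prob
  rw [pressure_eq hφ] at heq
  have h1 := freeEnergy_le hφ hinv
  rw [heq, ← EReal.coe_zero, EReal.coe_le_coe_iff] at h1
  have h0 : 0 ≤ ∫ z, psi (code z) ∂ν := integral_nonneg fun z => psi_nonneg _
  have h2 : ∫ z, psi (code z) ∂ν = 0 := by linarith
  have h3 : ∀ᵐ z ∂ν, psi (code z) = 0 :=
    (integral_eq_zero_iff_of_nonneg (fun z => psi_nonneg _) (integrable_psi_code ν)).1 h2
  have h4 : ∀ j : ℤ, ∀ᵐ z ∂ν, psi (shift j (code z)) = 0 := by
    intro j
    have := (zpow_mp hinv.inv j).quasiMeasurePreserving.ae h3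
    filter_upwards [this] with z hz
    rw [← code_zpow]; exact hz
  have h5 : ∀ᵐ z ∂ν, Good (code z) := by
    filter_upwards [ae_all_iff.2 h4] with z hz using good_of_psi hz
  have : IsProbabilityMeasure (ν.map code) :=
    Measure.isProbabilityMeasure_map measurable_code.aemeasurable
  have h6 : ν.map code = muSeq := by
    refine good_measure_unique _ _ ?_ ?_ muSeq_inv muSeq_good
    · refine ⟨measurable_shift 1, ?_⟩
      rw [Measure.map_map (measurable_shift 1) measurable_code]
      have : shift 1 ∘ code = code ∘ hf := by funext z; exact (code_hf z).symm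
      rw [this, ← Measure.map_map measurable_code continuous_hf.measurable, hinv.inv.map_eq]
    · rw [ae_map_iff measurable_code.aemeasurable measurableSet_good]
      exact h5
  unfold muH
  rw [← h6, Measure.map_map measurable_pt measurable_code]
  have h7 : pt ∘ code =ᵐ[ν] id := by
    filter_upwards [ae_mem_hK hinv.inv] with z hz using pt_code hz
  rw [Measure.map_congr h7, Measure.map_id]

theorem isUnique_muH {φ : ℂ × ℂ → ℝ} (hφ : ∀ z ∈ hK, φ z = -psi (code z)) :
    IsUniqueEquilibriumState hf φ muH := by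
  refine ⟨⟨isInvariantProb_muH, le_antisymm ?_ ?_⟩, fun ν hν => eq_muH hφ hν⟩
  · exact le_iSup_of_le muH (le_iSup_of_le isInvariantProb_muH le_rfl)
  · rw [pressure_eq hφ]
    exact freeEnergy_muH hφ

end Pool.Agent.H82.Hen
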